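import Mathlib

/-!
# Asymptotic Weyl–Heisenberg SICs in prime dimensions and in dimensions `q - 1`

`X|j⟩ = |j+1⟩`, `Z|j⟩ = ω^j |j⟩`, `ω = e^{2πi/d}`, `D_{a,b} = X^a Z^b`.  A WH SIC fiducial is a unit
vector `ψ ∈ ℂ^d` with `|⟨ψ|D_{a,b}|ψ⟩|² = 1/(d+1)` for all `(a,b) ≠ (0,0)`.  Let `d ≥ 625` be a prime,
or let `d + 1` be a prime power. There is a unit vector with

* `| d |⟨ψ|D_{a,b}|ψ⟩|² - 1 | ≤ 110 d^{-1/4}` for **all** `(a,b) ≠ (0,0)`, so that all the overlaps are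
  asymptotically equal (bounds from above and from below);
* `| ∑_{a,b} |⟨D_{a,b}ψ|A|D_{a,b}ψ⟩|² - ‖A‖² | ≤ 110 d^{-1/4} ‖A‖²` for all traceless matrices `A`
  (`‖A‖` is the Hilbert–Schmidt norm): the covariant measurement is, for large `d`, informationally
  complete and nearly tight.

Construction: Alltop's cubic phases `e(x³/d)`, `d` prime, have overlaps of absolute value `d^{-1/2}`
for `a ≠ 0`, but `0` for `a = 0`; the values `χ(g^x)` of an additive character along the powers of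
a generator of `𝔽_q^*`, `q = d + 1`, have the right overlaps for `a, b ≠ 0` (Gauss sums), but very
small ones if `a = 0` or `b = 0`.  Add `d^{-1/4} |0⟩`, and in the second case also `d^{-1/4}` times the
flat unit vector.  This adds `d^{-1/2}` to the exceptional overlaps, and all cross terms are
`O(d^{-3/4})`.
-/

set_option autoImplicit false

open Finset

namespace Pool.Agent.Results.MP_1c78a5_mp.AsymptoticFiducials

/-- the shift operator, `X|j⟩ = |j+1⟩` -/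
def X {d : ℕ} (ψ : ZMod d → ℂ) : ZMod d → ℂ := fun j => ψ (j - 1)

/-- the clock operator, `Z|j⟩ = ω^j |j⟩`, `ω = e^{2πi/d}` -/
noncomputable def Z {d : ℕ} (ψ : ZMod d → ℂ) : ZMod d → ℂ :=
  fun j => Complex.exp (2 * Real.pi * Complex.I / d) ^ j.val * ψ j

/-- the displacement operators `D_{a,b} = X^a Z^b` -/
noncomputable def D {d : ℕ} (a b : ZMod d) (ψ : ZMod d → ℂ) : ZMod d → ℂ :=
  X^[a.val] (Z^[b.val] ψ)

/-- the inner product `⟨φ|ψ⟩` -/
noncomputable def ip {d : ℕ} [NeZero d] (φ ψ : ZMod d → ℂ) : ℂ :=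
  ∑ j, (starRingEnd ℂ) (φ j) * ψ j

/-! ### The displacement operators and additive characters -/

lemma X_iter {d : ℕ} (n : ℕ) (ψ : ZMod d → ℂ) (j : ZMod d) : X^[n] ψ j = ψ (j - n) := by
  induction n generalizing j with
  | zero => simp
  | succ n ih =>
    rw [Function.iterate_succ_apply']
    unfold X at ih ⊢
    rw [ih]
    congr 1
    push_cast
    ring

lemma Z_iter {d : ℕ} (n : ℕ) (ψ : ZMod d → ℂ) (j : ZMod d) :
    Z^[n] ψ j = (Complex.exp (2 * Real.pi * Complex.I / d) ^ j.val) ^ n * ψ j := by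
  induction n with
  | zero => simp
  | succ n ih =>
    rw [Function.iterate_succ_apply']
    unfold Z at ih ⊢
    rw [ih, pow_succ]
    ring

variable {d : ℕ} [NeZero d]

/-- the standard additive character of `ℤ/d` -/
noncomputable abbrev ch (x : ZMod d) : ℂ := ZMod.stdAddChar x

lemma root_pow (m n : ZMod d) :
    (Complex.exp (2 * Real.pi * Complex.I / d) ^ m.val) ^ n.val = ch (n * m) := by
  have h1 : n * m = (((n.val * m.val : ℕ) : ℤ) : ZMod d) := by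
    push_cast
    rw [ZMod.natCast_zmod_val, ZMod.natCast_zmod_val]
  unfold ch
  rw [h1, ZMod.stdAddChar_coe, ← pow_mul, ← Complex.exp_nat_mul]
  congr 1
  push_cast
  ring

lemma D_apply (a b : ZMod d) (ψ : ZMod d → ℂ) (j : ZMod d) :
    D a b ψ j = ch (b * (j - a)) * ψ (j - a) := by
  unfold D
  rw [X_iter, Z_iter, root_pow, ZMod.natCast_zmod_val]

lemma ip_D (φ ψ : ZMod d → ℂ) (a b : ZMod d) :
    ip φ (D a b ψ) = ∑ x, (starRingEnd ℂ) (φ (x + a)) * (ch (b * x) * ψ x) := by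
  unfold ip
  symm
  apply Fintype.sum_equiv (Equiv.addRight a)
  intro x
  rw [D_apply, Equiv.coe_addRight, add_sub_cancel_right]

lemma ch_norm (x : ZMod d) : ‖ch x‖ = 1 := by
  unfold ch
  rw [ZMod.stdAddChar_apply]
  exact Circle.norm_coe _

lemma ch_add (x y : ZMod d) : ch (x + y) = ch x * ch y := AddChar.map_add_eq_mul _ _ _

lemma ch_zero : ch (0 : ZMod d) = 1 := AddChar.map_zero_eq_one _

lemma ch_neg (x : ZMod d) : (starRingEnd ℂ) (ch x) = ch (-x) :=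
  (AddChar.map_neg_eq_conj _ _).symm

lemma sum_ch (b : ZMod d) : ∑ x, ch (b * x) = if b = 0 then (d : ℂ) else 0 := by
  have := AddChar.sum_mulShift b (ZMod.isPrimitive_stdAddChar d)
  rw [ZMod.card] at this
  simp_rw [mul_comm b]
  exact_mod_cast this

/-! ### Perturbation -/

/-- the overlap -/
noncomputable def B (φ ψ : ZMod d → ℂ) (a b : ZMod d) : ℂ :=
  ∑ x, (starRingEnd ℂ) (φ (x + a)) * (ch (b * x) * ψ x)

lemma B_expand (φ w : ZMod d → ℂ) (s : ℝ) (a b : ZMod d) :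
    B (fun x => φ x + s * w x) (fun x => φ x + s * w x) a b =
      B φ φ a b + s * (B φ w a b + B w φ a b) + s ^ 2 * B w w a b := by
  unfold B
  rw [mul_add, mul_sum, mul_sum, mul_sum, ← sum_add_distrib, ← sum_add_distrib,
    ← sum_add_distrib]
  refine sum_congr rfl fun x _ => ?_
  simp only [map_add, map_mul, Complex.conj_ofReal]
  ring

lemma B_add_right (φ v w : ZMod d → ℂ) (a b : ZMod d) :
    B φ (fun x => v x + w x) a b = B φ v a b + B φ w a b := by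
  unfold B
  rw [← sum_add_distrib]
  exact sum_congr rfl fun x _ => by ring

lemma B_add_left (φ v w : ZMod d → ℂ) (a b : ZMod d) :
    B (fun x => v x + w x) φ a b = B v φ a b + B w φ a b := by
  unfold B
  rw [← sum_add_distrib]
  exact sum_congr rfl fun x _ => by rw [map_add]; ring

/-- the basis vector `|0⟩` -/
def e0 (x : ZMod d) : ℂ := if x = 0 then 1 else 0

/-- the flat vector -/
noncomputable def u0 (_ : ZMod d) : ℂ := ((√(d : ℝ))⁻¹ : ℝ)

lemma B_e0 (φ : ZMod d → ℂ) (a b : ZMod d) : B φ e0 a b = (starRingEnd ℂ) (φ a) := by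
  unfold B e0
  rw [sum_eq_single 0]
  · simp
  · intro x _ hx
    rw [if_neg hx]; simp
  · intro h; exact absurd (mem_univ _) h

lemma e0_B (φ : ZMod d → ℂ) (a b : ZMod d) : B e0 φ a b = ch (b * -a) * φ (-a) := by
  unfold B e0
  rw [sum_eq_single (-a)]
  · simp
  · intro x _ hx
    have : x + a ≠ 0 := fun h => hx (eq_neg_of_add_eq_zero_left h)
    rw [if_neg this]; simp
  · intro h; exact absurd (mem_univ _) h

lemma B_e0_e0 (a b : ZMod d) : B e0 e0 a b = if a = 0 then 1 else 0 := by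
  rw [B_e0]
  unfold e0
  split_ifs <;> simp

lemma sqrt_d_pos : 0 < √(d : ℝ) := Real.sqrt_pos.2 (by exact_mod_cast Nat.pos_of_neZero d)

lemma norm_u0 (x : ZMod d) : ‖u0 x‖ = (√(d : ℝ))⁻¹ := by
  unfold u0
  rw [Complex.norm_real, Real.norm_eq_abs, abs_of_pos (inv_pos.2 sqrt_d_pos)]

lemma u0_u0 (a b : ZMod d) : B u0 u0 a b = if b = 0 then 1 else 0 := by
  unfold B u0
  simp_rw [Complex.conj_ofReal]
  have h1 : ∀ x : ZMod d, (((√(d : ℝ))⁻¹ : ℝ) : ℂ) * (ch (b * x) * ((√(d : ℝ))⁻¹ : ℝ)) =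
      ((d : ℝ)⁻¹ : ℝ) * ch (b * x) := by
    intro x
    have h2 : ((√(d : ℝ))⁻¹ : ℝ) * ((√(d : ℝ))⁻¹ : ℝ) = (d : ℝ)⁻¹ := by
      rw [← mul_inv, Real.mul_self_sqrt (by positivity)]
    rw [← h2]
    push_cast
    ring
  simp_rw [h1]
  rw [← mul_sum, sum_ch]
  have hd : (d : ℂ) ≠ 0 := by exact_mod_cast (NeZero.ne d)
  split_ifs
  · push_cast
    field_simp
  · simp

/-! ### The final estimate -/

lemma final_bound {s E N : ℝ} (hs : 0 < s) (hs5 : s ≤ 1 / 5) (hE : |E - s ^ 2| ≤ 9 * s ^ 3)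
    (hN : |N - 1| ≤ 10 * s ^ 2) : |(E / N) ^ 2 / s ^ 4 - 1| ≤ 110 * s := by
  obtain ⟨θ, hθ⟩ : ∃ θ : ℝ, θ = E / s ^ 2 - 1 := ⟨_, rfl⟩
  have hs2 : 0 < s ^ 2 := by positivity
  have hE1 : E = s ^ 2 * (1 + θ) := by rw [hθ]; field_simp; ring
  have h1 : |θ| ≤ 9 * s := by
    have : E - s ^ 2 = s ^ 2 * θ := by rw [hE1]; ring
    rw [this, abs_mul, abs_of_pos hs2] at hE
    have h2 : s ^ 2 * |θ| ≤ s ^ 2 * (9 * s) := by nlinarith
    exact le_of_mul_le_mul_left h2 hs2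
  have hs25 : s ^ 2 ≤ 1 / 25 := by nlinarith
  obtain ⟨hN1, hN2⟩ := abs_le.1 hN
  have hN06 : (3 / 5 : ℝ) ≤ N := by linarith
  have hN14 : N ≤ 7 / 5 := by linarith
  obtain ⟨ht1, ht2⟩ := abs_le.1 h1
  have e : (E / N) ^ 2 / s ^ 4 - 1 = ((1 + θ) ^ 2 - N ^ 2) / N ^ 2 := by
    rw [hE1]
    have : N ≠ 0 := by positivity
    field_simp
  rw [e, abs_div, abs_of_pos (show 0 < N ^ 2 by positivity), div_le_iff₀ (by positivity)]
  have h3 : |(1 + θ) ^ 2 - 1| ≤ 18 * s + 81 * s ^ 2 := by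
    have : (1 + θ) ^ 2 - 1 = θ * (2 + θ) := by ring
    rw [this, abs_mul]
    have h4 : |2 + θ| ≤ 2 + 9 * s := (abs_add_le _ _).trans (by rw [abs_two]; linarith)
    calc |θ| * |2 + θ| ≤ (9 * s) * (2 + 9 * s) := by gcongr
      _ = 18 * s + 81 * s ^ 2 := by ring
  have h5 : |N ^ 2 - 1| ≤ 20 * s ^ 2 + 100 * s ^ 4 := by
    have : N ^ 2 - 1 = (N - 1) * (2 + (N - 1)) := by ring
    rw [this, abs_mul]
    have h4 : |2 + (N - 1)| ≤ 2 + 10 * s ^ 2 := (abs_add_le _ _).trans (by rw [abs_two]; linarith)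
    calc |N - 1| * |2 + (N - 1)| ≤ (10 * s ^ 2) * (2 + 10 * s ^ 2) := by gcongr
      _ = 20 * s ^ 2 + 100 * s ^ 4 := by ring
  have h6 : |(1 + θ) ^ 2 - N ^ 2| ≤ 39 * s := by
    have : (1 + θ) ^ 2 - N ^ 2 = ((1 + θ) ^ 2 - 1) - (N ^ 2 - 1) := by ring
    rw [this]
    refine (abs_sub _ _).trans ?_
    have h7 : s ^ 4 ≤ s ^ 2 * (1 / 25) := by nlinarith
    have h8 : s ^ 2 ≤ s * (1 / 5) := by nlinarith
    nlinarith
  have h9 : (9 / 25 : ℝ) ≤ N ^ 2 := by nlinarith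
  nlinarith

/-- from a vector which is nearly normalised to a unit vector -/
lemma normalise {s : ℝ} (hs : 0 < s) (hs5 : s ≤ 1 / 5) (hsd : s ^ 4 = (d : ℝ)⁻¹)
    (v : ZMod d → ℂ) (hN : ‖B v v 0 0 - 1‖ ≤ 10 * s ^ 2)
    (hE : ∀ a b : ZMod d, (a, b) ≠ (0, 0) → |‖B v v a b‖ - s ^ 2| ≤ 9 * s ^ 3) :
    ∃ ψ : ZMod d → ℂ, ip ψ ψ = 1 ∧ ∀ a b : ZMod d, (a, b) ≠ (0, 0) →
      |d * ‖ip ψ (D a b ψ)‖ ^ 2 - 1| ≤ 110 * s := by
  obtain ⟨N, hNdef⟩ : ∃ N : ℝ, N = ∑ x, ‖v x‖ ^ 2 := ⟨_, rfl⟩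
  have hB : B v v 0 0 = (N : ℂ) := by
    rw [hNdef]
    unfold B
    push_cast
    refine sum_congr rfl fun x _ => ?_
    rw [add_zero, zero_mul, ch_zero, one_mul, ← Complex.normSq_eq_conj_mul_self,
      Complex.normSq_eq_norm_sq]
    push_cast
    rfl
  have hN1 : |N - 1| ≤ 10 * s ^ 2 := by
    rw [hB] at hN
    have : (N : ℂ) - 1 = ((N - 1 : ℝ) : ℂ) := by push_cast; ring
    rw [this, Complex.norm_real, Real.norm_eq_abs] at hN
    exact hN
  have hN06 : (3 / 5 : ℝ) ≤ N := by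
    have hs25 : s ^ 2 ≤ 1 / 25 := by nlinarith
    have := (abs_le.1 hN1).1
    linarith
  have hN0 : 0 < N := by linarith
  have hsq : (√N)⁻¹ * (√N)⁻¹ = N⁻¹ := by rw [← mul_inv, Real.mul_self_sqrt hN0.le]
  have hsqc : (((√N)⁻¹ : ℝ) : ℂ) * (((√N)⁻¹ : ℝ) : ℂ) = ((N⁻¹ : ℝ) : ℂ) := by
    rw [← hsq]; push_cast; ring
  have hip : ∀ a b : ZMod d, ip (fun x => (((√N)⁻¹ : ℝ) : ℂ) * v x)
      (D a b (fun x => (((√N)⁻¹ : ℝ) : ℂ) * v x)) = ((N⁻¹ : ℝ) : ℂ) * B v v a b := by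
    intro a b
    rw [ip_D, ← hsqc]
    unfold B
    rw [mul_sum]
    refine sum_congr rfl fun x _ => ?_
    rw [map_mul, Complex.conj_ofReal]
    ring
  refine ⟨fun x => (((√N)⁻¹ : ℝ) : ℂ) * v x, ?_, fun a b hab => ?_⟩
  · have h1 := hip 0 0
    have h2 : D (0 : ZMod d) 0 (fun x => (((√N)⁻¹ : ℝ) : ℂ) * v x) =
        fun x => (((√N)⁻¹ : ℝ) : ℂ) * v x := by
      funext j
      rw [D_apply, zero_mul, ch_zero, one_mul, sub_zero]
    rw [h2, hB] at h1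
    rw [h1, ← Complex.ofReal_mul, inv_mul_cancel₀ hN0.ne', Complex.ofReal_one]
  · rw [hip, norm_mul, Complex.norm_real, Real.norm_eq_abs, abs_of_pos (inv_pos.2 hN0)]
    have h1 := final_bound hs hs5 (hE a b hab) hN1
    rw [hsd, div_inv_eq_mul] at h1
    have h2 : (d : ℝ) * (N⁻¹ * ‖B v v a b‖) ^ 2 = (‖B v v a b‖ / N) ^ 2 * d := by
      rw [div_eq_inv_mul]; ring
    rw [h2]
    exact h1

lemma close_of {z w : ℂ} {r ε : ℝ} (h : ‖w‖ = r) (h2 : ‖z - w‖ ≤ ε) : |‖z‖ - r| ≤ ε := by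
  rw [← h]
  exact (abs_norm_sub_norm_le z w).trans h2

/-- the square of the norm of a sum of products with a fixed character -/
lemma mul_conj_self (z : ℂ) : z * (starRingEnd ℂ) z = ((‖z‖ ^ 2 : ℝ) : ℂ) := by
  rw [Complex.mul_conj, Complex.normSq_eq_norm_sq]

/-- `s = d^(-1/4)` -/
lemma s_facts (hd : 625 ≤ d) : ∃ s : ℝ, s = (d : ℝ) ^ (-(1 / 4) : ℝ) ∧ 0 < s ∧ s ≤ 1 / 5 ∧
    s ^ 4 = (d : ℝ)⁻¹ ∧ s ^ 2 = (√(d : ℝ))⁻¹ := by
  have hd0 : (0 : ℝ) < d := by positivity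
  have hd1 : (625 : ℝ) ≤ d := by exact_mod_cast hd
  have h4 : ((d : ℝ) ^ (-(1 / 4) : ℝ)) ^ 4 = (d : ℝ)⁻¹ := by
    rw [← Real.rpow_natCast, ← Real.rpow_mul hd0.le]
    norm_num
    exact Real.rpow_neg_one _
  have h0 : 0 < (d : ℝ) ^ (-(1 / 4) : ℝ) := Real.rpow_pos_of_pos hd0 _
  refine ⟨_, rfl, h0, ?_, h4, ?_⟩
  · refine le_of_pow_le_pow_left₀ (n := 4) (by norm_num) (by norm_num) ?_
    rw [h4]
    rw [inv_le_comm₀ hd0 (by norm_num)]
    norm_num
    exact hd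
  · rw [Real.sqrt_eq_rpow, ← Real.rpow_neg hd0.le, ← Real.rpow_natCast, ← Real.rpow_mul hd0.le]
    norm_num

/-! ### Prime dimensions -/

/-- quadratic exponential sums -/
lemma quad_sum (hp : d.Prime) (hd : 3 ≤ d) {α : ZMod d} (hα : α ≠ 0) (β : ZMod d) :
    ‖∑ x : ZMod d, ch (α * x ^ 2 + β * x)‖ ^ 2 = d := by
  have := Fact.mk hp
  have h2 : (2 : ZMod d) ≠ 0 := by
    intro h
    have h3 : ((2 : ℕ) : ZMod d) = 0 := by exact_mod_cast h
    rw [ZMod.natCast_eq_zero_iff] at h3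
    have := Nat.le_of_dvd (by norm_num) h3
    omega
  have key : (∑ x : ZMod d, ch (α * x ^ 2 + β * x)) *
      (starRingEnd ℂ) (∑ x : ZMod d, ch (α * x ^ 2 + β * x)) = d := by
    rw [map_sum, sum_mul_sum]
    simp_rw [ch_neg, ← ch_add]
    rw [sum_comm]
    have h1 : ∀ y : ZMod d, ∑ x : ZMod d, ch (α * x ^ 2 + β * x + -(α * y ^ 2 + β * y)) =
        ∑ t : ZMod d, ch (α * t ^ 2 + β * t) * ch (2 * α * t * y) := by
      intro y
      symm
      apply Fintype.sum_equiv (Equiv.addRight y)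
      intro t
      rw [← ch_add, Equiv.coe_addRight]
      congr 1
      ring
    simp_rw [h1]
    rw [sum_comm]
    simp_rw [← mul_sum, sum_ch]
    rw [sum_eq_single 0]
    · simp
    · intro t _ ht
      rw [if_neg (mul_ne_zero (mul_ne_zero h2 hα) ht), mul_zero]
    · intro h; exact absurd (mem_univ _) h
  rw [mul_conj_self] at key
  exact_mod_cast key

/-- the cubic phases -/
noncomputable def cub (x : ZMod d) : ℂ := u0 x * ch (x ^ 3)

lemma norm_cub (x : ZMod d) : ‖cub x‖ = (√(d : ℝ))⁻¹ := by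
  unfold cub
  rw [norm_mul, norm_u0, ch_norm, mul_one]

omit [NeZero d] in
lemma u0_sq (x y : ZMod d) : (starRingEnd ℂ) (u0 x) * u0 y = ((d : ℝ)⁻¹ : ℝ) := by
  unfold u0
  rw [Complex.conj_ofReal, ← Complex.ofReal_mul, ← mul_inv, Real.mul_self_sqrt (by positivity)]

lemma cub_cub (a b : ZMod d) : B cub cub a b =
    ((d : ℝ)⁻¹ : ℝ) * (ch (-a ^ 3) * ∑ x, ch (-(3 * a) * x ^ 2 + (b - 3 * a ^ 2) * x)) := by
  unfold B cub
  rw [mul_sum, mul_sum]
  refine sum_congr rfl fun x _ => ?_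
  rw [map_mul, ch_neg, ← u0_sq (x + a) x, ← ch_add]
  have h1 : ch (-a ^ 3 + (-(3 * a) * x ^ 2 + (b - 3 * a ^ 2) * x)) =
      ch (-(x + a) ^ 3) * ch (b * x) * ch (x ^ 3) := by
    rw [← ch_add, ← ch_add]
    congr 1
    ring
  rw [h1]
  ring

theorem prime_case (hp : d.Prime) (hd : 625 ≤ d) : ∃ ψ : ZMod d → ℂ, ip ψ ψ = 1 ∧
    ∀ a b : ZMod d, (a, b) ≠ (0, 0) →
      |d * ‖ip ψ (D a b ψ)‖ ^ 2 - 1| ≤ 110 * (d : ℝ) ^ (-(1 / 4) : ℝ) := by
  obtain ⟨s, hs, hs0, hs5, hs4, hs2⟩ := s_facts hd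
  have := Fact.mk hp
  have hd0 : (0 : ℝ) < d := by positivity
  rw [← hs]
  have hR : ∀ a b : ZMod d, ‖B cub e0 a b + B e0 cub a b‖ ≤ 2 * s ^ 2 := by
    intro a b
    refine (norm_add_le _ _).trans ?_
    rw [B_e0, e0_B, norm_mul, ch_norm, one_mul, RCLike.norm_conj, norm_cub, norm_cub, hs2]
    linarith
  have hRs : ∀ a b : ZMod d, ‖(s : ℂ) * (B cub e0 a b + B e0 cub a b)‖ ≤ 2 * s ^ 3 := by
    intro a b
    rw [norm_mul, Complex.norm_real, Real.norm_eq_abs, abs_of_pos hs0]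
    calc s * ‖B cub e0 a b + B e0 cub a b‖ ≤ s * (2 * s ^ 2) := by gcongr; exact hR a b
      _ = 2 * s ^ 3 := by ring
  have hzero : ∀ b : ZMod d, B cub cub 0 b = if b = 0 then 1 else 0 := by
    intro b
    rw [cub_cub]
    have h1 : ∀ x : ZMod d, ch (-(3 * 0) * x ^ 2 + (b - 3 * 0 ^ 2) * x) = ch (b * x) := by
      intro x; congr 1; ring
    simp_rw [h1]
    rw [sum_ch, show -(0 : ZMod d) ^ 3 = 0 by ring, ch_zero]
    split_ifs
    · push_cast
      have : (d : ℂ) ≠ 0 := by exact_mod_cast (NeZero.ne d)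
      field_simp
    · simp
  refine normalise hs0 hs5 hs4 (fun x => cub x + s * e0 x) ?_ ?_
  · rw [B_expand, hzero, if_pos rfl, B_e0_e0, if_pos rfl]
    have e : 1 + (s : ℂ) * (B cub e0 (0 : ZMod d) 0 + B e0 cub (0 : ZMod d) 0) +
        (s : ℂ) ^ 2 * 1 - 1 =
        (s : ℂ) * (B cub e0 (0 : ZMod d) 0 + B e0 cub (0 : ZMod d) 0) + (s : ℂ) ^ 2 := by ring
    rw [e]
    refine (norm_add_le _ _).trans ?_
    have h1 := hRs 0 0
    have h2 : ‖(s : ℂ) ^ 2‖ = s ^ 2 := by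
      rw [norm_pow, Complex.norm_real, Real.norm_eq_abs, abs_of_pos hs0]
    rw [h2]
    have h3 : s ^ 3 ≤ s ^ 2 * (1 / 5) := by nlinarith [sq_nonneg s]
    nlinarith [sq_nonneg s]
  · intro a b hab
    rw [B_expand, B_e0_e0]
    have hs3 : 0 < s ^ 3 := by positivity
    by_cases ha : a = 0
    · subst ha
      have hb : b ≠ 0 := fun h => hab (by rw [h])
      rw [hzero, if_neg hb, if_pos rfl, zero_add, mul_one]
      refine (close_of (w := (s : ℂ) ^ 2) (ε := 2 * s ^ 3) ?_ ?_).trans (by linarith)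
      · rw [norm_pow, Complex.norm_real, Real.norm_eq_abs, abs_of_pos hs0]
      · rw [add_sub_cancel_right]; exact hRs 0 b
    · rw [if_neg ha, mul_zero, add_zero]
      refine (close_of (w := B cub cub a b) (ε := 2 * s ^ 3) ?_ ?_).trans (by linarith)
      · have h3 : (3 : ZMod d) ≠ 0 := by
          intro h
          have h3 : ((3 : ℕ) : ZMod d) = 0 := by exact_mod_cast h
          rw [ZMod.natCast_eq_zero_iff] at h3
          have := Nat.le_of_dvd (by norm_num) h3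
          omega
        have h4 := quad_sum hp (by omega) (neg_ne_zero.2 (mul_ne_zero h3 ha)) (b - 3 * a ^ 2)
        rw [cub_cub, norm_mul, norm_mul, ch_norm, one_mul, Complex.norm_real, Real.norm_eq_abs,
          abs_of_pos (inv_pos.2 hd0), hs2]
        have h5 : ‖∑ x, ch (-(3 * a) * x ^ 2 + (b - 3 * a ^ 2) * x)‖ = √(d : ℝ) := by
          rw [← h4, Real.sqrt_sq (norm_nonneg _)]
        rw [h5]
        have h6 : (d : ℝ) = √(d : ℝ) * √(d : ℝ) := (Real.mul_self_sqrt hd0.le).symm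
        have h7 : √(d : ℝ) ≠ 0 := (sqrt_d_pos).ne'
        rw [h6, Real.sqrt_mul_self (Real.sqrt_nonneg _)]
        field_simp
      · rw [add_sub_cancel_left]; exact hRs a b

/-! ### Dimensions `q - 1` -/

section Field

variable {F : Type} [Field F]

omit [NeZero d]

/-- discrete exponential -/
def hh (e : Multiplicative (ZMod d) ≃* Fˣ) (x : ZMod d) : F := ((e (Multiplicative.ofAdd x) : Fˣ) : F)

lemma hh_add (e : Multiplicative (ZMod d) ≃* Fˣ) (x y : ZMod d) :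
    hh e (x + y) = hh e x * hh e y := by
  unfold hh
  rw [ofAdd_add, map_mul, Units.val_mul]

lemma hh_ne (e : Multiplicative (ZMod d) ≃* Fˣ) (x : ZMod d) : hh e x ≠ 0 := Units.ne_zero _

lemma hh_one (e : Multiplicative (ZMod d) ≃* Fˣ) (x : ZMod d) : hh e x = 1 ↔ x = 0 := by
  unfold hh
  rw [Units.val_eq_one, map_eq_one_iff _ e.injective, ofAdd_eq_one]

variable [NeZero d] [Fintype F] [DecidableEq F]

/-- sums of additive characters over the multiplicative group -/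
lemma sum_mul (hF : Fintype.card F = d + 1) (e : Multiplicative (ZMod d) ≃* Fˣ) {χ : AddChar F ℂ}
    (hχ : χ.IsPrimitive) (k : F) :
    ∑ x : ZMod d, χ (k * hh e x) = (if k = 0 then (d : ℂ) + 1 else 0) - 1 := by
  have h1 : ∑ x : ZMod d, χ (k * hh e x) = ∑ u : Fˣ, χ (k * (u : F)) := by
    apply Fintype.sum_equiv (Multiplicative.ofAdd.trans e.toEquiv)
    intro x
    rfl
  have h2 : ∑ u : Fˣ, χ (k * (u : F)) = ∑ y ∈ univ.filter (fun y : F => y ≠ 0), χ (k * y) := by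
    symm
    refine sum_bij' (fun y hy => Units.mk0 y (by simpa using hy)) (fun u _ => (u : F))
      ?_ ?_ ?_ ?_ ?_
    · intro y hy; exact mem_univ _
    · intro u _; simp
    · intro y hy; rfl
    · intro u _; simp
    · intro y hy; rfl
  have h3 : ∑ y : F, χ (k * y) = if k = 0 then (d : ℂ) + 1 else 0 := by
    have := AddChar.sum_mulShift k hχ
    simp_rw [mul_comm k]
    rw [this, hF]
    push_cast
    rfl
  have h4 := sum_filter_add_sum_filter_not univ (fun y : F => y ≠ 0) (fun y => χ (k * y))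
  have h5 : ∑ y ∈ univ.filter (fun y : F => ¬ y ≠ 0), χ (k * y) = 1 := by
    have : univ.filter (fun y : F => ¬ y ≠ 0) = {0} := by ext y; simp
    rw [this, sum_singleton, mul_zero, AddChar.map_zero_eq_one]
  rw [h1, h2, ← h3, ← h4, h5]
  ring

/-- Gauss sums -/
lemma gauss (hF : Fintype.card F = d + 1) (e : Multiplicative (ZMod d) ≃* Fˣ) {χ : AddChar F ℂ}
    (hχ : χ.IsPrimitive) {c : F} (hc : c ≠ 0) (b : ZMod d) :
    ‖∑ x : ZMod d, ch (b * x) * χ (c * hh e x)‖ ^ 2 = if b = 0 then 1 else (d : ℝ) + 1 := by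
  have key : (∑ x : ZMod d, ch (b * x) * χ (c * hh e x)) *
      (starRingEnd ℂ) (∑ x : ZMod d, ch (b * x) * χ (c * hh e x)) =
      if b = 0 then 1 else (d : ℂ) + 1 := by
    rw [map_sum, sum_mul_sum, sum_comm]
    have h1 : ∀ y : ZMod d, ∑ x : ZMod d, ch (b * x) * χ (c * hh e x) *
        (starRingEnd ℂ) (ch (b * y) * χ (c * hh e y)) =
        ∑ t : ZMod d, ch (b * t) * χ (c * (hh e t - 1) * hh e y) := by
      intro y
      symm
      apply Fintype.sum_equiv (Equiv.addRight y)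
      intro t
      rw [Equiv.coe_addRight, map_mul (starRingEnd ℂ), ch_neg, ← AddChar.map_neg_eq_conj, hh_add]
      have h2 : ch (b * (t + y)) * χ (c * (hh e t * hh e y)) *
          (ch (-(b * y)) * χ (-(c * hh e y))) =
          (ch (b * (t + y)) * ch (-(b * y))) * (χ (c * (hh e t * hh e y)) *
            χ (-(c * hh e y))) := by ring
      rw [h2, ← ch_add, ← AddChar.map_add_eq_mul]
      congr 2
      · ring
      · ring
    simp_rw [h1]
    rw [sum_comm]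
    simp_rw [← mul_sum, sum_mul hF e hχ]
    have h3 : ∀ t : ZMod d, (if c * (hh e t - 1) = 0 then (d : ℂ) + 1 else 0) =
        if t = 0 then (d : ℂ) + 1 else 0 := by
      intro t
      have : c * (hh e t - 1) = 0 ↔ t = 0 := by
        rw [mul_eq_zero, or_iff_right hc, sub_eq_zero, hh_one]
      simp only [this]
    simp_rw [h3, mul_sub, mul_one, sum_sub_distrib, mul_ite, mul_zero]
    rw [sum_ite_eq' univ (0 : ZMod d), if_pos (mem_univ _), sum_ch, mul_zero, ch_zero]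
    split_ifs
    · ring
    · ring
  rw [mul_conj_self] at key
  split_ifs at key ⊢ with hb
  · exact_mod_cast key
  · exact_mod_cast key

/-- the values of an additive character along the powers of a generator -/
noncomputable def lg (e : Multiplicative (ZMod d) ≃* Fˣ) (χ : AddChar F ℂ) (x : ZMod d) : ℂ :=
  u0 x * χ (hh e x)

omit [Fintype F] [DecidableEq F] in
lemma norm_addChar [Finite F] (χ : AddChar F ℂ) (x : F) : ‖χ x‖ = 1 := AddChar.norm_apply _ _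

omit [DecidableEq F] in
lemma norm_lg (e : Multiplicative (ZMod d) ≃* Fˣ) (χ : AddChar F ℂ) (x : ZMod d) :
    ‖lg e χ x‖ = (√(d : ℝ))⁻¹ := by
  unfold lg
  rw [norm_mul, norm_u0, norm_addChar, mul_one]

omit [DecidableEq F] in
lemma lg_lg (e : Multiplicative (ZMod d) ≃* Fˣ) (χ : AddChar F ℂ) (a b : ZMod d) :
    B (lg e χ) (lg e χ) a b =
      ((d : ℝ)⁻¹ : ℝ) * ∑ x, ch (b * x) * χ ((1 - hh e a) * hh e x) := by
  unfold B lg
  rw [mul_sum]
  refine sum_congr rfl fun x _ => ?_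
  rw [map_mul (starRingEnd ℂ), ← u0_sq (x + a) x, ← AddChar.map_neg_eq_conj]
  have h1 : χ ((1 - hh e a) * hh e x) = χ (-(hh e (x + a))) * χ (hh e x) := by
    rw [← AddChar.map_add_eq_mul]
    congr 1
    rw [hh_add]
    ring
  rw [h1]
  ring

omit [DecidableEq F] in
lemma lg_u0 (e : Multiplicative (ZMod d) ≃* Fˣ) (χ : AddChar F ℂ) (a b : ZMod d) :
    B (lg e χ) u0 a b = ((d : ℝ)⁻¹ : ℝ) * ∑ x, ch (b * x) * χ ((-hh e a) * hh e x) := by
  unfold B lg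
  rw [mul_sum]
  refine sum_congr rfl fun x _ => ?_
  rw [map_mul (starRingEnd ℂ), ← u0_sq (x + a) x, ← AddChar.map_neg_eq_conj, hh_add]
  have h1 : χ (-hh e a * hh e x) = χ (-(hh e x * hh e a)) := by congr 1; ring
  rw [h1]
  ring

omit [Fintype F] [DecidableEq F] in
lemma u0_lg (e : Multiplicative (ZMod d) ≃* Fˣ) (χ : AddChar F ℂ) (a b : ZMod d) :
    B u0 (lg e χ) a b = ((d : ℝ)⁻¹ : ℝ) * ∑ x, ch (b * x) * χ (1 * hh e x) := by
  unfold B lg
  rw [mul_sum]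
  refine sum_congr rfl fun x _ => ?_
  rw [← u0_sq (x + a) x, one_mul]
  ring

/-- upper bound for a Gauss sum divided by `d` -/
lemma gauss_le (hF : Fintype.card F = d + 1) (hd : 625 ≤ d) (e : Multiplicative (ZMod d) ≃* Fˣ)
    {χ : AddChar F ℂ} (hχ : χ.IsPrimitive) {c : F} (hc : c ≠ 0) (b : ZMod d) {s : ℝ}
    (hs2 : s ^ 2 = (√(d : ℝ))⁻¹) (hs4 : s ^ 4 = (d : ℝ)⁻¹) :
    ‖(((d : ℝ)⁻¹ : ℝ) : ℂ) * ∑ x, ch (b * x) * χ (c * hh e x)‖ ≤ 2 * s ^ 2 ∧
    (b ≠ 0 → |‖(((d : ℝ)⁻¹ : ℝ) : ℂ) * ∑ x, ch (b * x) * χ (c * hh e x)‖ - s ^ 2| ≤ s ^ 4) ∧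
    (b = 0 → ‖(((d : ℝ)⁻¹ : ℝ) : ℂ) * ∑ x, ch (b * x) * χ (c * hh e x)‖ = s ^ 4) := by
  have hd0 : (0 : ℝ) < d := by positivity
  have hd1 : (625 : ℝ) ≤ d := by exact_mod_cast hd
  have g := gauss hF e hχ hc b
  rw [norm_mul, Complex.norm_real, Real.norm_eq_abs, abs_of_pos (inv_pos.2 hd0), ← hs4]
  obtain ⟨G, hG⟩ : ∃ G : ℝ, G = ‖∑ x, ch (b * x) * χ (c * hh e x)‖ := ⟨_, rfl⟩
  rw [← hG] at g ⊢
  have hG0 : 0 ≤ G := by rw [hG]; exact norm_nonneg _
  obtain ⟨r, hr⟩ : ∃ r : ℝ, r = √(d : ℝ) := ⟨_, rfl⟩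
  have hr0 : 0 < r := by rw [hr]; exact sqrt_d_pos
  have hrd : r ^ 2 = d := by rw [hr]; exact Real.sq_sqrt hd0.le
  have hr1 : 1 ≤ r := by nlinarith
  rw [← hr] at hs2
  have hsr : s ^ 4 = (r ^ 2)⁻¹ := by rw [hs4, hrd]
  rw [hs2, hsr]
  have hi : (r ^ 2)⁻¹ * r = r⁻¹ := by field_simp
  refine ⟨?_, ?_, ?_⟩
  · have h1 : G ≤ 2 * r := by
      refine le_of_pow_le_pow_left₀ two_ne_zero (by positivity) ?_
      rw [g]
      split_ifs
      · nlinarith
      · nlinarith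
    calc (r ^ 2)⁻¹ * G ≤ (r ^ 2)⁻¹ * (2 * r) := by gcongr
      _ = 2 * r⁻¹ := by rw [← hi]; ring
  · intro hb
    rw [if_neg hb] at g
    have h1 : r ≤ G := le_of_pow_le_pow_left₀ two_ne_zero hG0 (by rw [g]; linarith)
    have h2 : G ≤ r + 1 :=
      le_of_pow_le_pow_left₀ two_ne_zero (by positivity) (by rw [g]; nlinarith)
    have e1 : (r ^ 2)⁻¹ * G - r⁻¹ = (r ^ 2)⁻¹ * (G - r) := by rw [← hi]; ring
    rw [e1, abs_mul, abs_of_pos (show 0 < (r ^ 2)⁻¹ by positivity), abs_of_nonneg (by linarith)]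
    calc (r ^ 2)⁻¹ * (G - r) ≤ (r ^ 2)⁻¹ * 1 := by gcongr; linarith
      _ = (r ^ 2)⁻¹ := mul_one _
  · intro hb
    rw [if_pos hb] at g
    have h1 : G = 1 := by nlinarith
    rw [h1, mul_one]

theorem field_case (hF : Fintype.card F = d + 1) (e : Multiplicative (ZMod d) ≃* Fˣ)
    (hd : 625 ≤ d) : ∃ ψ : ZMod d → ℂ, ip ψ ψ = 1 ∧
    ∀ a b : ZMod d, (a, b) ≠ (0, 0) →
      |d * ‖ip ψ (D a b ψ)‖ ^ 2 - 1| ≤ 110 * (d : ℝ) ^ (-(1 / 4) : ℝ) := by
  obtain ⟨s, hs, hs0, hs5, hs4, hs2⟩ := s_facts hd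
  have hd0 : (0 : ℝ) < d := by positivity
  rw [← hs]
  obtain ⟨χ, hχ⟩ : ∃ χ : AddChar F ℂ, χ.IsPrimitive :=
    ⟨_, AddChar.FiniteField.primitiveChar_to_Complex_isPrimitive F⟩
  obtain ⟨φ, hφ⟩ : ∃ φ : ZMod d → ℂ, φ = lg e χ := ⟨_, rfl⟩
  have w1 : ∀ a b : ZMod d, ‖B φ (fun x => e0 x + u0 x) a b +
      B (fun x => e0 x + u0 x) φ a b‖ ≤ 6 * s ^ 2 := by
    intro a b
    rw [B_add_right, B_add_left]
    refine (norm_add_le _ _).trans ?_
    have n1 := norm_add_le (B φ e0 a b) (B φ u0 a b)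
    have n2 := norm_add_le (B e0 φ a b) (B u0 φ a b)
    have m1 : ‖B φ e0 a b‖ = s ^ 2 := by
      rw [B_e0, RCLike.norm_conj, hφ, norm_lg, hs2]
    have m2 : ‖B e0 φ a b‖ = s ^ 2 := by
      rw [e0_B, norm_mul, ch_norm, one_mul, hφ, norm_lg, hs2]
    have m3 : ‖B φ u0 a b‖ ≤ 2 * s ^ 2 := by
      rw [hφ, lg_u0]
      exact (gauss_le hF hd e hχ (neg_ne_zero.2 (hh_ne e a)) b hs2 hs4).1
    have m4 : ‖B u0 φ a b‖ ≤ 2 * s ^ 2 := by
      rw [hφ, u0_lg]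
      exact (gauss_le hF hd e hχ one_ne_zero b hs2 hs4).1
    linarith
  have hRs : ∀ a b : ZMod d, ‖(s : ℂ) * (B φ (fun x => e0 x + u0 x) a b +
      B (fun x => e0 x + u0 x) φ a b)‖ ≤ 6 * s ^ 3 := by
    intro a b
    rw [norm_mul, Complex.norm_real, Real.norm_eq_abs, abs_of_pos hs0]
    calc s * ‖B φ (fun x => e0 x + u0 x) a b + B (fun x => e0 x + u0 x) φ a b‖
        ≤ s * (6 * s ^ 2) := by gcongr; exact w1 a b
      _ = 6 * s ^ 3 := by ring
  have hw : ∀ a b : ZMod d, ∃ z : ℂ, ‖z‖ ≤ 2 * s ^ 4 ∧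
      (s : ℂ) ^ 2 * B (fun x => e0 x + u0 x) (fun x => e0 x + u0 x) a b =
        (s : ℂ) ^ 2 * ((if a = 0 then 1 else 0) + (if b = 0 then 1 else 0)) + z := by
    intro a b
    refine ⟨(s : ℂ) ^ 2 * (B e0 u0 a b + B u0 e0 a b), ?_, ?_⟩
    · rw [norm_mul, norm_pow, Complex.norm_real, Real.norm_eq_abs, abs_of_pos hs0]
      have n1 : ‖B e0 u0 a b + B u0 e0 a b‖ ≤ 2 * s ^ 2 := by
        refine (norm_add_le _ _).trans ?_
        rw [e0_B, B_e0, norm_mul, ch_norm, one_mul, RCLike.norm_conj, norm_u0, norm_u0, hs2]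
        linarith
      calc s ^ 2 * ‖B e0 u0 a b + B u0 e0 a b‖ ≤ s ^ 2 * (2 * s ^ 2) := by gcongr
        _ = 2 * s ^ 4 := by ring
    · rw [B_add_right, B_add_left, B_add_left, B_e0_e0, u0_u0]
      ring
  have hs43 : s ^ 4 ≤ s ^ 3 * (1 / 5) := by
    have : s ^ 4 = s ^ 3 * s := by ring
    rw [this]
    gcongr
  have hs32 : s ^ 3 ≤ s ^ 2 * (1 / 5) := by
    have : s ^ 3 = s ^ 2 * s := by ring
    rw [this]
    gcongr
  have hs3 : 0 < s ^ 3 := by positivity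
  have hs20 : 0 < s ^ 2 := by positivity
  have hzero : ∀ b : ZMod d, B φ φ 0 b = if b = 0 then 1 else 0 := by
    intro b
    rw [hφ, lg_lg]
    have h1 : (hh e (0 : ZMod d) : F) = 1 := (hh_one e 0).2 rfl
    simp_rw [h1, sub_self, zero_mul, AddChar.map_zero_eq_one, mul_one]
    rw [sum_ch]
    split_ifs
    · push_cast
      have : (d : ℂ) ≠ 0 := by exact_mod_cast (NeZero.ne d)
      field_simp
    · simp
  have hns : ‖(s : ℂ) ^ 2‖ = s ^ 2 := by
    rw [norm_pow, Complex.norm_real, Real.norm_eq_abs, abs_of_pos hs0]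
  refine normalise hs0 hs5 hs4 (fun x => φ x + s * (e0 x + u0 x)) ?_ ?_
  · rw [B_expand φ (fun x => e0 x + u0 x)]
    obtain ⟨z, hz, hz2⟩ := hw 0 0
    rw [hz2, hzero, if_pos rfl]
    obtain ⟨R, hR⟩ : ∃ R : ℂ, R = (s : ℂ) * (B φ (fun x => e0 x + u0 x) 0 0 +
      B (fun x => e0 x + u0 x) φ 0 0) := ⟨_, rfl⟩
    have hRn := hRs 0 0
    rw [← hR] at hRn ⊢
    have e1 : 1 + R + ((s : ℂ) ^ 2 * ((if True then 1 else 0) + (if True then 1 else 0)) + z) - 1 =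
        R + (s : ℂ) ^ 2 + (s : ℂ) ^ 2 + z := by simp; ring
    simp only [if_true] at e1 ⊢
    rw [e1]
    have n1 := norm_add_le (R + (s : ℂ) ^ 2 + (s : ℂ) ^ 2) z
    have n2 := norm_add_le (R + (s : ℂ) ^ 2) ((s : ℂ) ^ 2)
    have n3 := norm_add_le R ((s : ℂ) ^ 2)
    rw [hns] at n2 n3
    linarith
  · intro a b hab
    rw [B_expand φ (fun x => e0 x + u0 x)]
    obtain ⟨z, hz, hz2⟩ := hw a b
    rw [hz2]
    obtain ⟨R, hR⟩ : ∃ R : ℂ, R = (s : ℂ) * (B φ (fun x => e0 x + u0 x) a b +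
      B (fun x => e0 x + u0 x) φ a b) := ⟨_, rfl⟩
    have hRn := hRs a b
    rw [← hR] at hRn ⊢
    by_cases ha : a = 0
    · subst ha
      have hb : b ≠ 0 := fun h => hab (by rw [h])
      rw [hzero, if_neg hb, if_pos rfl]
      refine (close_of (w := (s : ℂ) ^ 2) (ε := 6 * s ^ 3 + 2 * s ^ 4) hns ?_).trans (by linarith)
      have e1 : 0 + R + ((s : ℂ) ^ 2 * (1 + 0) + z) - (s : ℂ) ^ 2 = R + z := by ring
      rw [e1]
      exact (norm_add_le _ _).trans (by linarith)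
    · have hc : (1 : F) - hh e a ≠ 0 := by
        intro h
        rw [sub_eq_zero] at h
        exact ha ((hh_one e a).1 h.symm)
      obtain ⟨g1, g2, g3⟩ := gauss_le hF hd e hχ hc b hs2 hs4
      rw [if_neg ha]
      by_cases hb : b = 0
      · have g := g3 hb
        rw [← lg_lg, ← hφ] at g
        rw [if_pos hb]
        refine (close_of (w := (s : ℂ) ^ 2) (ε := s ^ 4 + 6 * s ^ 3 + 2 * s ^ 4) hns ?_).trans
          (by linarith)
        have e1 : B φ φ a b + R + ((s : ℂ) ^ 2 * (0 + 1) + z) - (s : ℂ) ^ 2 =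
          B φ φ a b + R + z := by ring
        rw [e1]
        have n1 := norm_add_le (B φ φ a b + R) z
        have n2 := norm_add_le (B φ φ a b) R
        linarith
      · have g := g2 hb
        rw [← lg_lg, ← hφ] at g
        rw [if_neg hb, add_zero, mul_zero, zero_add]
        have n1 : |‖B φ φ a b + R + z‖ - ‖B φ φ a b‖| ≤ 6 * s ^ 3 + 2 * s ^ 4 := by
          refine (abs_norm_sub_norm_le _ _).trans ?_
          have e1 : B φ φ a b + R + z - B φ φ a b = R + z := by ring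
          rw [e1]
          exact (norm_add_le _ _).trans (by linarith)
        have n2 := abs_sub_le ‖B φ φ a b + R + z‖ ‖B φ φ a b‖ (s ^ 2)
        linarith

end Field

/-! ### The frame bounds -/

lemma parseval (f : ZMod d → ℂ) :
    ∑ t : ZMod d, ‖∑ x, ch (t * x) * f x‖ ^ 2 = d * ∑ x, ‖f x‖ ^ 2 := by
  have key : ∑ t : ZMod d, (∑ x, ch (t * x) * f x) *
      (starRingEnd ℂ) (∑ x, ch (t * x) * f x) = d * ∑ x, f x * (starRingEnd ℂ) (f x) := by
    simp_rw [map_sum, sum_mul_sum, map_mul (starRingEnd ℂ), ch_neg]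
    have h1 : ∀ t x y : ZMod d, ch (t * x) * f x * (ch (-(t * y)) * (starRingEnd ℂ) (f y)) =
        f x * (starRingEnd ℂ) (f y) * ch ((x - y) * t) := by
      intro t x y
      have : ch ((x - y) * t) = ch (t * x) * ch (-(t * y)) := by
        rw [← ch_add]; congr 1; ring
      rw [this]; ring
    simp_rw [h1]
    rw [sum_comm]
    rw [mul_sum]
    refine sum_congr rfl fun x _ => ?_
    rw [sum_comm]
    simp_rw [← mul_sum, sum_ch]
    rw [sum_eq_single x]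
    · rw [sub_self, if_pos rfl]; ring
    · intro y _ hy
      rw [if_neg (sub_ne_zero.2 (Ne.symm hy)), mul_zero]
    · intro h; exact absurd (mem_univ _) h
  simp_rw [mul_conj_self] at key
  exact_mod_cast key

/-- the quadratic form `⟨φ|A|φ⟩` -/
noncomputable def qf (A : ZMod d → ZMod d → ℂ) (φ : ZMod d → ℂ) : ℂ :=
  ∑ x, ∑ y, (starRingEnd ℂ) (φ x) * A x y * φ y

lemma qf_D (A : ZMod d → ZMod d → ℂ) (ψ : ZMod d → ℂ) (a b : ZMod d) :
    qf A (D a b ψ) = ∑ c, ch (b * -c) *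
      ∑ y, (starRingEnd ℂ) (ψ (y + c - a)) * ψ (y - a) * A (y + c) y := by
  unfold qf
  rw [sum_comm]
  simp_rw [mul_sum]
  rw [sum_comm (s := (univ : Finset (ZMod d))) (t := (univ : Finset (ZMod d)))
    (f := fun c y => ch (b * -c) * ((starRingEnd ℂ) (ψ (y + c - a)) * ψ (y - a) * A (y + c) y))]
  refine sum_congr rfl fun y _ => ?_
  symm
  apply Fintype.sum_equiv (Equiv.addLeft y)
  intro c
  rw [Equiv.coe_addLeft, D_apply, D_apply, map_mul (starRingEnd ℂ), ch_neg]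
  have h1 : ch (b * -c) = ch (-(b * (y + c - a))) * ch (b * (y - a)) := by
    rw [← ch_add]; congr 1; ring
  rw [h1]
  ring

/-- the frame identity -/
lemma frame_identity (A : ZMod d → ZMod d → ℂ) (ψ : ZMod d → ℂ) :
    ∑ a, ∑ b, ‖qf A (D a b ψ)‖ ^ 2 =
      ∑ c, ∑ t, ‖∑ y, ch (t * y) * A (y + c) y‖ ^ 2 * ‖B ψ ψ c (-t)‖ ^ 2 := by
  have hd0 : (d : ℝ) ≠ 0 := by exact_mod_cast (NeZero.ne d)
  obtain ⟨H, hH⟩ : ∃ H : ZMod d → ZMod d → ℂ, H = fun c a =>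
    ∑ y, (starRingEnd ℂ) (ψ (y + c - a)) * ψ (y - a) * A (y + c) y := ⟨_, rfl⟩
  have h1 : ∀ a, ∑ b, ‖qf A (D a b ψ)‖ ^ 2 = d * ∑ c, ‖H c a‖ ^ 2 := by
    intro a
    have e1 : ∀ b, qf A (D a b ψ) = ∑ x, ch (b * x) * H (-x) a := by
      intro b
      rw [qf_D, hH]
      apply Fintype.sum_equiv (Equiv.neg (ZMod d))
      intro c
      rw [Equiv.neg_apply, neg_neg]
    simp_rw [e1]
    rw [parseval]
    congr 1
    apply Fintype.sum_equiv (Equiv.neg (ZMod d))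
    intro c
    rfl
  simp_rw [h1]
  rw [← mul_sum, sum_comm, mul_sum]
  refine sum_congr rfl fun c _ => ?_
  rw [← parseval]
  refine sum_congr rfl fun t _ => ?_
  rw [← mul_pow, ← norm_mul]
  congr 2
  -- the transform of a convolution
  have e0 : ∑ x, ch (t * x) * H c x = ∑ y, ∑ x, ch (t * x) *
      ((starRingEnd ℂ) (ψ (y + c - x)) * ψ (y - x) * A (y + c) y) := by
    rw [hH]
    simp_rw [mul_sum]
    exact sum_comm
  rw [e0, Finset.sum_mul]
  unfold B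
  refine sum_congr rfl fun y _ => ?_
  rw [mul_sum]
  symm
  apply Fintype.sum_equiv (Equiv.subLeft y)
  intro z
  rw [Equiv.subLeft_apply]
  have e1 : y + c - (y - z) = z + c := by ring
  have e2 : y - (y - z) = z := by ring
  have e3 : ch (t * (y - z)) = ch (t * y) * ch (-t * z) := by
    rw [← ch_add]; congr 1; ring
  rw [e1, e2, e3]
  ring

lemma frame {ψ : ZMod d → ℂ} {ε : ℝ} (hψ : ∀ a b : ZMod d, (a, b) ≠ (0, 0) →
      |d * ‖ip ψ (D a b ψ)‖ ^ 2 - 1| ≤ ε) (A : ZMod d → ZMod d → ℂ) (hA : ∑ x, A x x = 0) :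
    |∑ a, ∑ b, ‖qf A (D a b ψ)‖ ^ 2 - ∑ x, ∑ y, ‖A x y‖ ^ 2| ≤ ε * ∑ x, ∑ y, ‖A x y‖ ^ 2 := by
  have hd0 : (0 : ℝ) < d := by exact_mod_cast Nat.pos_of_neZero d
  obtain ⟨α, hα⟩ : ∃ α : ZMod d → ZMod d → ℝ, α = fun c t =>
    ‖∑ y, ch (t * y) * A (y + c) y‖ ^ 2 := ⟨_, rfl⟩
  have h1 : ∑ x, ∑ y, ‖A x y‖ ^ 2 = ∑ c, ∑ t, (d : ℝ)⁻¹ * α c t := by
    have e1 : ∀ c, ∑ t, (d : ℝ)⁻¹ * α c t = ∑ y, ‖A (y + c) y‖ ^ 2 := by
      intro c
      rw [hα, ← mul_sum, parseval, ← mul_assoc, inv_mul_cancel₀ hd0.ne', one_mul]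
    simp_rw [e1]
    rw [sum_comm, sum_comm (s := (univ : Finset (ZMod d)))
      (f := fun c y => ‖A (y + c) y‖ ^ 2)]
    refine sum_congr rfl fun y _ => ?_
    symm
    apply Fintype.sum_equiv (Equiv.addLeft y)
    intro c
    rfl
  rw [frame_identity, h1, ← sum_sub_distrib, mul_sum]
  refine (abs_sum_le_sum_abs _ _).trans (sum_le_sum fun c _ => ?_)
  rw [← sum_sub_distrib, mul_sum]
  refine (abs_sum_le_sum_abs _ _).trans (sum_le_sum fun t _ => ?_)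
  have hα0 : 0 ≤ α c t := by rw [hα]; positivity
  have e2 : ‖∑ y, ch (t * y) * A (y + c) y‖ ^ 2 * ‖B ψ ψ c (-t)‖ ^ 2 - (d : ℝ)⁻¹ * α c t =
      (d : ℝ)⁻¹ * α c t * (d * ‖B ψ ψ c (-t)‖ ^ 2 - 1) := by
    rw [hα]
    field_simp
  rw [e2]
  by_cases h : (c, t) = (0, 0)
  · obtain ⟨hc, ht⟩ := Prod.mk.inj h
    have h0 : α c t = 0 := by
      rw [hα, hc, ht]
      simp only [zero_mul, ch_zero, one_mul, add_zero]
      rw [hA]; simp
    rw [h0]; simp
  · have h2 : (c, -t) ≠ (0, 0) := by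
      intro h3
      obtain ⟨hc, ht⟩ := Prod.mk.inj h3
      exact h (by rw [hc, neg_eq_zero.1 ht])
    have h4 := hψ c (-t) h2
    have h5 : ip ψ (D c (-t) ψ) = B ψ ψ c (-t) := ip_D ψ ψ c (-t)
    rw [h5] at h4
    rw [abs_mul, abs_of_nonneg (by positivity), mul_comm ε]
    gcongr

/-- **Theorem.** Let `d ≥ 625`, and let `d` be a prime or `d + 1` a prime power. There is a unit vector
`ψ ∈ ℂ^d` such that all the overlaps `|⟨ψ|D_{a,b}|ψ⟩|²`, `(a,b) ≠ (0,0)`, are `1/d` up to a relative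
error of at most `110 d^{-1/4}`; and for all traceless matrices `A` the sum of the squares
`|⟨D_{a,b}ψ|A|D_{a,b}ψ⟩|²` is the square of the Hilbert–Schmidt norm of `A`, up to a relative error of
at most `110 d^{-1/4}`. -/
theorem result (d : ℕ) [NeZero d] (hd : 625 ≤ d) (h : d.Prime ∨ IsPrimePow (d + 1)) :
    ∃ ψ : ZMod d → ℂ, ip ψ ψ = 1 ∧
      (∀ a b : ZMod d, (a, b) ≠ (0, 0) →
        |d * ‖ip ψ (D a b ψ)‖ ^ 2 - 1| ≤ 110 * (d : ℝ) ^ (-(1 / 4) : ℝ)) ∧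
      ∀ A : ZMod d → ZMod d → ℂ, ∑ x, A x x = 0 →
        |∑ a, ∑ b, ‖qf A (D a b ψ)‖ ^ 2 - ∑ x, ∑ y, ‖A x y‖ ^ 2| ≤
          110 * (d : ℝ) ^ (-(1 / 4) : ℝ) * ∑ x, ∑ y, ‖A x y‖ ^ 2 := by
  suffices hs : ∃ ψ : ZMod d → ℂ, ip ψ ψ = 1 ∧ ∀ a b : ZMod d, (a, b) ≠ (0, 0) →
      |d * ‖ip ψ (D a b ψ)‖ ^ 2 - 1| ≤ 110 * (d : ℝ) ^ (-(1 / 4) : ℝ) by
    obtain ⟨ψ, h1, h2⟩ := hs
    exact ⟨ψ, h1, h2, fun A hA => frame h2 A hA⟩
  rcases h with hp | ⟨p, n, hp, hn, hq⟩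
  · exact prime_case hp hd
  · have hp' : p.Prime := hp.nat_prime
    have := Fact.mk hp'
    classical
    let F := GaloisField p n
    have : Fintype F := Fintype.ofFinite F
    have hF : Fintype.card F = d + 1 := by
      rw [← Nat.card_eq_fintype_card, GaloisField.card p n hn.ne', hq]
    have hU : Nat.card Fˣ = d := by
      rw [Nat.card_units, Nat.card_eq_fintype_card, hF]
      rfl
    have e : Multiplicative (ZMod d) ≃* Fˣ := by
      rw [← hU]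
      exact zmodCyclicMulEquiv inferInstance
    exact field_case hF e hd

end Pool.Agent.Results.MP_1c78a5_mp.AsymptoticFiducials
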