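import Pool.Agent.Q92.Sic.All

/-!
# Symmetries of even order of Weyl–Heisenberg SIC fiducials

`X|j⟩ = |j+1⟩`, `Z|j⟩ = ω^j |j⟩`, `ω = e^{2πi/d}`, `D_{a,b} = X^a Z^b`; a WH SIC fiducial is a unit
vector `ψ ∈ ℂ^d` with `|⟨ψ|D_{a,b}|ψ⟩|² = 1/(d+1)` for all `(a,b) ≠ (0,0)`. A Clifford unitary maps
every displacement operator to a multiple of a displacement operator under conjugation; it is a
symmetry of `ψ` if `ψ` is one of its eigenvectors.

Let `U` be a Clifford symmetry of a WH SIC fiducial in dimension `d ≥ 2`, of even order modulo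
scalars, say `U^m` is not scalar but `U^(2m)` is; `Uψ = λψ`. Then `d + 1 = s²`,
`tr U^m = λ^m k` with an integer `k ∣ d`, `-(s-1) ≤ k ≤ s+1`, `k²` is the number of displacement
operators commuting with `U^m`, and
`⟨ψ|D_p U^m D_p^*|ψ⟩ = λ^m G(p)/s`, where `G` is `s` at the commuting `p` and `±1` elsewhere. The
signs form a partial difference set, invariant under all units of `ℤ/d`. Moreover
* `k = s+1`, and then all the signs are `+`, or
* `k = -(s-1)`, and then all the signs are `-`, or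
* `k = s-1`, and then the sign is `-` exactly on a subgroup of order `dk` (away from the
  commuting `p`), or
* `d/|k| = 2^e 3^b` with `e ≥ 2` and `b ≥ 1` (so that `12 ∣ d`).
For odd `d`, `U^m` commutes exactly with the `D_p`, `kp = 0`: up to a translation it is
`1 ⊗ parity` for the factorisation `d = (s-1)(s+1)` of the dimension.
-/

set_option autoImplicit false

open Finset Matrix

namespace Pool.Agent.Results.MP_1c78a5_mp.InvolutiveSymmetries

variable {d : ℕ} [NeZero d]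

/-- the shift operator, `X|j⟩ = |j+1⟩` -/
def X : Matrix (ZMod d) (ZMod d) ℂ := fun i j => if i = j + 1 then 1 else 0

/-- the clock operator, `Z|j⟩ = ω^j |j⟩`, `ω = e^{2πi/d}` -/
noncomputable def Z : Matrix (ZMod d) (ZMod d) ℂ :=
  Matrix.diagonal fun j => Complex.exp (2 * Real.pi * Complex.I / d) ^ j.val

/-- the displacement operators `D_{a,b} = X^a Z^b` -/
noncomputable def D (a b : ZMod d) : Matrix (ZMod d) (ZMod d) ℂ := X ^ a.val * Z ^ b.val

/-- WH SIC fiducials: unit vectors with `|⟨ψ|D_{a,b}|ψ⟩|² = 1/(d+1)` for all `(a,b) ≠ (0,0)` -/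
def IsFiducial (ψ : ZMod d → ℂ) : Prop :=
  star ψ ⬝ᵥ ψ = 1 ∧
    ∀ a b : ZMod d, (a ≠ 0 ∨ b ≠ 0) → ‖star ψ ⬝ᵥ (D a b *ᵥ ψ)‖ ^ 2 = 1 / (d + 1)

/-- Clifford unitaries: conjugation maps displacement operators to multiples of such operators -/
def IsClifford (U : Matrix (ZMod d) (ZMod d) ℂ) : Prop :=
  U ∈ Matrix.unitaryGroup (ZMod d) ℂ ∧
    ∀ a b : ZMod d, ∃ (a' b' : ZMod d) (c : ℂ), U * D a b * star U = c • D a' b'

/-- `V` commutes with the displacement operator `D_p` -/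
def Commutes (V : Matrix (ZMod d) (ZMod d) ℂ) (p : ZMod d × ZMod d) : Prop :=
  V * D p.1 p.2 = D p.1 p.2 * V

open Pool.Agent.Q92.Sic

theorem X_pow (n : ℕ) (i j : ZMod d) :
    ((X : Matrix (ZMod d) (ZMod d) ℂ) ^ n) i j = if i = j + n then 1 else 0 := by
  induction n generalizing j with
  | zero => simp [Matrix.one_apply]
  | succ n ih =>
    rw [pow_succ, Matrix.mul_apply, Finset.sum_eq_single (j + 1)]
    · rw [ih, X, if_pos rfl, mul_one]
      congr 1
      push_cast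
      rw [add_assoc, add_comm (1 : ZMod d)]
    · intro k _ hk
      rw [X, if_neg hk, mul_zero]
    · intro h; exact absurd (mem_univ _) h

theorem root_eq (j : ZMod d) : Complex.exp (2 * Real.pi * Complex.I / d) ^ j.val = ch j := by
  rw [ch, ZMod.stdAddChar_apply, ZMod.toCircle_apply, ← Complex.exp_nat_mul]
  congr 1
  ring

theorem ch_pow (n : ℕ) (x : ZMod d) : ch x ^ n = ch ((n : ZMod d) * x) := by
  induction n with
  | zero => simp [ch_zero]
  | succ n ih =>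
    rw [pow_succ, ih, ← ch_add]
    congr 1
    push_cast
    ring

theorem D_eq (a b : ZMod d) : D a b = DD (a, b) := by
  ext i j
  rw [D, Z, Matrix.diagonal_pow, Matrix.mul_diagonal, X_pow, DD]
  simp only [Pi.pow_apply]
  rw [root_eq, ch_pow, ZMod.natCast_zmod_val, ZMod.natCast_zmod_val]
  split_ifs <;> simp

theorem trace_vec (ψ : ZMod d → ℂ) (A : Matrix (ZMod d) (ZMod d) ℂ) :
    trace (vecMulVec ψ (star ψ) * A) = star ψ ⬝ᵥ (A *ᵥ ψ) := by
  rw [trace_mul_comm, mul_vecMulVec, trace_vecMulVec, dotProduct_comm]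

theorem core (ψ : ZMod d → ℂ) (hψ : IsFiducial ψ) (U : Matrix (ZMod d) (ZMod d) ℂ)
    (hU : IsClifford U) (lam : ℂ) (hlam : U *ᵥ ψ = lam • ψ) (m : ℕ)
    (h2 : ∃ c : ℂ, U ^ (2 * m) = c • 1) :
    lam ≠ 0 ∧ Core (vecMulVec ψ (star ψ)) ((lam ^ m)⁻¹ • U ^ m) := by
  obtain ⟨h1, hsic⟩ := hψ
  obtain ⟨hUu, hUc⟩ := hU
  have hψ0 : ψ ≠ 0 := by
    intro h; rw [h] at h1; simp at h1
  have hUU : star U * U = 1 := Matrix.mem_unitaryGroup_iff'.mp hUu
  -- |lam| = 1
  have hl : lam * star lam = 1 := by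
    have e : star (U *ᵥ ψ) ⬝ᵥ (U *ᵥ ψ) = 1 := by
      rw [star_mulVec, dotProduct_mulVec, vecMul_vecMul, ← star_eq_conjTranspose, hUU, vecMul_one, h1]
    rw [hlam, star_smul, smul_dotProduct, dotProduct_smul, h1, smul_eq_mul, smul_eq_mul, mul_one,
      mul_comm] at e
    exact e
  have hl0 : lam ≠ 0 := left_ne_zero_of_mul_eq_one hl
  have hpow : ∀ n : ℕ, U ^ n *ᵥ ψ = lam ^ n • ψ := by
    intro n
    induction n with
    | zero => simp
    | succ n ih =>
      rw [pow_succ, ← mulVec_mulVec, hlam, mulVec_smul, ih, smul_smul, pow_succ, mul_comm]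
  have hlm : (lam ^ m) * star (lam ^ m) = 1 := by
    rw [star_pow, ← mul_pow, hl, one_pow]
  have hlm0 : lam ^ m ≠ 0 := pow_ne_zero m hl0
  have hinv : star ((lam ^ m)⁻¹) = lam ^ m := by
    rw [star_inv₀]
    exact inv_eq_of_mul_eq_one_left hlm
  obtain ⟨c, hc⟩ := h2
  have hcl : c = lam ^ (2 * m) := by
    have e := hpow (2 * m)
    rw [hc, smul_mulVec, one_mulVec] at e
    obtain ⟨j, hj⟩ : ∃ j, ψ j ≠ 0 := Function.ne_iff.mp hψ0
    have e2 := congrFun e j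
    exact mul_right_cancel₀ hj e2
  have hUm : U ^ m ∈ Matrix.unitaryGroup (ZMod d) ℂ := pow_mem hUu m
  have hUm1 : star (U ^ m) * U ^ m = 1 := Matrix.mem_unitaryGroup_iff'.mp hUm
  have hWW : ((lam ^ m)⁻¹ • U ^ m) * ((lam ^ m)⁻¹ • U ^ m) = 1 := by
    rw [smul_mul_smul_comm, ← pow_add, ← two_mul, hc, hcl, smul_smul, two_mul, pow_add]
    rw [show (lam ^ m)⁻¹ * (lam ^ m)⁻¹ * (lam ^ m * lam ^ m) = 1 by field_simp, one_smul]
  have hsW' : star ((lam ^ m)⁻¹ • U ^ m) * ((lam ^ m)⁻¹ • U ^ m) = 1 := by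
    rw [star_smul, smul_mul_smul_comm, hUm1, hinv, mul_inv_cancel₀ hlm0, one_smul]
  have hsW : star ((lam ^ m)⁻¹ • U ^ m) = (lam ^ m)⁻¹ • U ^ m := by
    calc star ((lam ^ m)⁻¹ • U ^ m)
        = star ((lam ^ m)⁻¹ • U ^ m) * (((lam ^ m)⁻¹ • U ^ m) * ((lam ^ m)⁻¹ • U ^ m)) := by
          rw [hWW, mul_one]
      _ = (lam ^ m)⁻¹ • U ^ m := by rw [← mul_assoc, hsW', one_mul]
  have hcl' : ∀ n : ℕ, ∀ p : PP d, ∃ (q : PP d) (c : ℂ), U ^ n * DD p * star (U ^ n) = c • DD q := by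
    intro n
    induction n with
    | zero => intro p; exact ⟨p, 1, by simp⟩
    | succ n ih =>
      intro p
      obtain ⟨q, c, hq⟩ := ih p
      obtain ⟨a', b', c', hc'⟩ := hUc q.1 q.2
      rw [D_eq, D_eq] at hc'
      refine ⟨(a', b'), c * c', ?_⟩
      rw [pow_succ', star_mul]
      calc U * U ^ n * DD p * (star (U ^ n) * star U)
          = U * (U ^ n * DD p * star (U ^ n)) * star U := by simp only [mul_assoc]
        _ = (c * c') • DD (a', b') := by
            rw [hq, mul_smul_comm, smul_mul_assoc]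
            change c • (U * DD (q.1, q.2) * star U) = _
            rw [hc', smul_smul]
  refine ⟨hl0, ?_, ?_, ?_, hsW, hWW, ?_, ?_⟩
  · rw [star_eq_conjTranspose, conjTranspose_vecMulVec, star_star]
  · rw [trace_vecMulVec, dotProduct_comm, h1]
  · intro p hp
    rw [trace_vec]
    have := hsic p.1 p.2 (by
      by_contra h
      push Not at h
      exact hp (Prod.ext h.1 h.2))
    rwa [D_eq] at this
  · rw [smul_mul_assoc, mul_vecMulVec, hpow, ← smul_vecMulVec, smul_smul, inv_mul_cancel₀ hlm0,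
      one_smul]
  · intro p
    obtain ⟨q, c, hq⟩ := hcl' m p
    refine ⟨q, c, ?_⟩
    conv_lhs => rw [← hsW]
    conv_lhs => rw [hsW]
    nth_rw 2 [← hsW]
    rw [star_smul, smul_mul_assoc, smul_mul_assoc, mul_smul_comm, smul_smul, hq, hinv,
      inv_mul_cancel₀ hlm0, one_smul]

/-- **Symmetries of even order of WH SIC fiducials.** -/
theorem result (d : ℕ) [NeZero d] (hd : 2 ≤ d) (ψ : ZMod d → ℂ) (hψ : IsFiducial ψ)
    (U : Matrix (ZMod d) (ZMod d) ℂ) (hU : IsClifford U) (lam : ℂ) (hlam : U *ᵥ ψ = lam • ψ)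
    (m : ℕ) (h1 : ¬ ∃ c : ℂ, U ^ m = c • 1) (h2 : ∃ c : ℂ, U ^ (2 * m) = c • 1) :
    ∃ (s : ℕ) (k : ℤ) (G : ZMod d × ZMod d → ℤ),
      d + 1 = s ^ 2 ∧ trace (U ^ m) = lam ^ m * k ∧
      k ∣ d ∧ -((s : ℤ) - 1) ≤ k ∧ k ≤ s + 1 ∧
      k ^ 2 = Nat.card {p : ZMod d × ZMod d // Commutes (U ^ m) p} ∧
      -- the sign function
      (∀ a b : ZMod d, star ψ ⬝ᵥ ((D a b * U ^ m * star (D a b)) *ᵥ ψ) =
        lam ^ m * ((G (a, b) : ℂ) / s)) ∧
      (∀ p, Commutes (U ^ m) p → G p = s) ∧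
      (∀ p, ¬ Commutes (U ^ m) p → G p = 1 ∨ G p = -1) ∧
      (∀ p r, Commutes (U ^ m) r → G (p + r) = G p) ∧
      (∀ t : ZMod d, IsUnit t → ∀ p, G (t • p) = G p) ∧
      ∑ p, G p = s * d * k ∧
      (∀ r, ¬ Commutes (U ^ m) r → ∑ p, G p * G (p + r) = d * k ^ 2) ∧
      -- the possible traces
      (k = s + 1 ∨ k = s - 1 ∨ k = -((s : ℤ) - 1) ∨
        ∃ e b : ℕ, 2 ≤ e ∧ 1 ≤ b ∧ (d : ℤ) = 2 ^ e * 3 ^ b * |k|) ∧
      -- the signs in the three main cases
      (k = s + 1 → ∀ p, ¬ Commutes (U ^ m) p → G p = 1) ∧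
      (k = -((s : ℤ) - 1) → ∀ p, ¬ Commutes (U ^ m) p → G p = -1) ∧
      (k = (s : ℤ) - 1 → ∃ L : AddSubgroup (ZMod d × ZMod d), (Nat.card L : ℤ) = d * k ∧
        ∀ p, (p ∈ L ↔ (Commutes (U ^ m) p ∨ G p = -1))) ∧
      -- odd dimensions
      (Odd d → ∀ p, (Commutes (U ^ m) p ↔ (k : ZMod d) • p = 0)) := by
  obtain ⟨hl0, hcore⟩ := core ψ hψ U hU lam hlam m h2
  have hlm0 : lam ^ m ≠ 0 := pow_ne_zero m hl0
  have hW : ∀ c : ℂ, (lam ^ m)⁻¹ • U ^ m ≠ c • 1 := by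
    intro c hc
    refine h1 ⟨lam ^ m * c, ?_⟩
    rw [mul_smul, ← hc, smul_smul, mul_inv_cancel₀ hlm0, one_smul]
  obtain ⟨s, k, hs, hk, hk1, hk2, hk3⟩ := hcore.main hd hW
  have hcomm : ∀ p : ZMod d × ZMod d, Commutes (U ^ m) p ↔ hcore.F p = p := by
    intro p
    rw [hcore.fix_iff, Commutes]
    change _ ↔ ((lam ^ m)⁻¹ • U ^ m) * DD p = DD p * ((lam ^ m)⁻¹ • U ^ m)
    rw [D_eq, smul_mul_assoc, mul_smul_comm]
    exact (smul_right_injective _ (inv_ne_zero hlm0)).eq_iff.symm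
  refine ⟨s, k, hcore.G s, hs, ?_, hcore.dvd hk3, hk1, hk2, ?_, ?_, ?_, ?_, ?_, ?_,
    hcore.G_sum hs hk, ?_, ?_, ?_, ?_, ?_, ?_⟩
  · rw [trace_smul, smul_eq_mul] at hk
    rw [← hk, ← mul_assoc, mul_inv_cancel₀ hlm0, one_mul]
  · rw [hk3, ← hcore.card_grp]
    congr 1
    apply Nat.card_congr
    refine Equiv.subtypeEquivRight fun p => ?_
    rw [hcomm]
    exact hcore.F_iff_grp p
  · intro a b
    have e := hcore.gg_G hs (a, b)
    rw [← e, gg, ← trace_vec, D_eq, mul_smul_comm, smul_mul_assoc, mul_smul_comm, trace_smul,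
      smul_eq_mul, mul_inv_cancel_left₀ hlm0]
  · intro p hp
    exact hcore.G_fix s ((hcomm p).mp hp)
  · intro p hp
    exact hcore.G_cases s (fun hF => hp ((hcomm p).mpr hF))
  · intro p r hr
    exact hcore.G_period hs p ((hcomm r).mp hr)
  · intro t ht p
    have h3 : Nat.Coprime t.val d := by
      rw [← ZMod.natCast_zmod_val t] at ht
      exact (ZMod.isUnit_iff_coprime _ _).mp ht
    have h4 := hcore.G_unit hs hk hk3 t.val h3 p
    rwa [ZMod.natCast_zmod_val] at h4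
  · intro r hr
    exact hcore.G_auto hs hk (fun hF => hr ((hcomm r).mpr hF))
  · exact hcore.all_case hd hW hs hk hk3 hk1 hk2
  · intro hks p hp
    exact hcore.signs_pos hs hk hk3 hks p (fun hF => hp ((hcomm p).mpr hF))
  · intro hks p hp
    exact hcore.signs_neg hs hk hk3 hks p (fun hF => hp ((hcomm p).mpr hF))
  · intro hks
    obtain ⟨L, hL1, hL2⟩ := hcore.signs_lag hs hk hk3 hks
    refine ⟨L, hL1, fun p => ?_⟩
    rw [hL2, hcomm]
  · intro hodd p
    rw [hcomm]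
    exact hcore.odd_fix hd hW hs hk hk3 hk1 hk2 hodd p

end Pool.Agent.Results.MP_1c78a5_mp.InvolutiveSymmetries
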