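import Pool.Agent.H125.SicGap.Dual
import Pool.Agent.H125.SicGap.Lines
import Pool.Agent.H125.SicGap.Three

/-!
# Weyl–Heisenberg overlaps: how many of the SIC equations can fail

`X|j⟩ = |j+1⟩`, `Z|j⟩ = ω^j |j⟩`, `ω = e^{2πi/d}`, `D_{a,b} = X^a Z^b`, `f(a,b) = |⟨ψ|D_{a,b}|ψ⟩|²`.

For a unit vector `ψ ∈ ℂ^d` and a real number `c` let `E` be the set of the `p ≠ (0,0)` with
`f(p) ≠ c`.

* If `|E| ≤ d - 2`, then `ψ` is a WH SIC fiducial and `c = 1/(d+1)`.
* If `|E| = d - 1`, then `E ∪ {0}` is a Lagrangian subgroup, `f = 1 - dc` on `E`, and `c ≠ 1/(d+1)`. So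
  `ψ` is a fiducial as soon as at most `d - 1` of the `d² - 1` SIC equations fail.
* If `d` is odd, then `|E|` is even.
* If `d` is an odd prime, then `|E| ∈ {0, d - 1}` or `|E| ≥ 2d - 2`; so `ψ` is a fiducial as soon as more
  than `(d-1)²` of the `d² - 1` SIC equations hold, whichever they are.

The squared overlaps are `1/d` times their own symplectic Fourier transform, and so is
`h = f - c(1 + d δ_0)`.  In the prime case we reduce `h` modulo a place of `ℂ` over `d`: all values of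
the characters become `1`, so the reduction has equal sums over parallel lines. Such functions are
codewords of the dual of the code spanned by differences of parallel lines of the affine plane over
`𝔽_p` with values in a field of characteristic `p`; with less than `2p - 2` nonzero values they are
supported on one line.
-/

set_option autoImplicit false

open Finset

namespace Pool.Agent.Results.MP_1c78a5_mp.OverlapGaps

open Pool.Agent.H125.SicGap

/-- the shift operator, `X|j⟩ = |j+1⟩` -/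
def X {d : ℕ} (ψ : ZMod d → ℂ) : ZMod d → ℂ := fun j => ψ (j - 1)

/-- the clock operator, `Z|j⟩ = ω^j |j⟩`, `ω = e^{2πi/d}` -/
noncomputable def Z {d : ℕ} (ψ : ZMod d → ℂ) : ZMod d → ℂ :=
  fun j => Complex.exp (2 * Real.pi * Complex.I / d) ^ j.val * ψ j

/-- the displacement operators `D_{a,b} = X^a Z^b` -/
noncomputable def D {d : ℕ} (a b : ZMod d) (ψ : ZMod d → ℂ) : ZMod d → ℂ :=
  X^[a.val] (Z^[b.val] ψ)

/-- the inner product `⟨φ|ψ⟩` -/
noncomputable def ip {d : ℕ} [NeZero d] (φ ψ : ZMod d → ℂ) : ℂ :=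
  ∑ j, (starRingEnd ℂ) (φ j) * ψ j

/-- the squared overlap `|⟨ψ|D_p|ψ⟩|²` -/
noncomputable def overlap {d : ℕ} [NeZero d] (ψ : ZMod d → ℂ) (p : ZMod d × ZMod d) : ℝ :=
  ‖ip ψ (D p.1 p.2 ψ)‖ ^ 2

open Classical in
/-- the set of the `p ≠ (0,0)` for which the squared overlap is not equal to `c` -/
noncomputable def exceptions {d : ℕ} [NeZero d] (ψ : ZMod d → ℂ) (c : ℝ) :
    Finset (ZMod d × ZMod d) :=
  univ.filter fun p => p ≠ 0 ∧ overlap ψ p ≠ c

/-- `ψ` is a Weyl–Heisenberg SIC fiducial -/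
def IsFiducial {d : ℕ} [NeZero d] (ψ : ZMod d → ℂ) : Prop :=
  ∑ j, ‖ψ j‖ ^ 2 = 1 ∧ ∀ a b : ZMod d, (a, b) ≠ (0, 0) → ‖ip ψ (D a b ψ)‖ ^ 2 = 1 / (d + 1)

lemma X_iter {d : ℕ} (n : ℕ) (ψ : ZMod d → ℂ) (j : ZMod d) : X^[n] ψ j = ψ (j - n) := by
  induction n generalizing j with
  | zero => simp
  | succ n ih =>
    rw [Function.iterate_succ_apply']
    unfold X at ih ⊢
    rw [ih]
    congr 1
    push_cast
    ring

lemma Z_iter {d : ℕ} (n : ℕ) (ψ : ZMod d → ℂ) (j : ZMod d) :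
    Z^[n] ψ j = (Complex.exp (2 * Real.pi * Complex.I / d) ^ j.val) ^ n * ψ j := by
  induction n with
  | zero => simp
  | succ n ih =>
    rw [Function.iterate_succ_apply']
    unfold Z at ih ⊢
    rw [ih, pow_succ]
    ring

variable {d : ℕ} [NeZero d]

lemma root_pow (m n : ZMod d) :
    (Complex.exp (2 * Real.pi * Complex.I / d) ^ m.val) ^ n.val = ch (n * m) := by
  have h1 : n * m = (((n.val * m.val : ℕ) : ℤ) : ZMod d) := by
    push_cast
    rw [ZMod.natCast_zmod_val, ZMod.natCast_zmod_val]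
  unfold ch
  rw [h1, ZMod.stdAddChar_coe, ← pow_mul, ← Complex.exp_nat_mul]
  congr 1
  push_cast
  ring

lemma D_apply (a b : ZMod d) (ψ : ZMod d → ℂ) (j : ZMod d) :
    D a b ψ j = ch (b * (j - a)) * ψ (j - a) := by
  unfold D
  rw [X_iter, Z_iter, root_pow, ZMod.natCast_zmod_val]

lemma ip_D (φ ψ : ZMod d → ℂ) (a b : ZMod d) :
    ip φ (D a b ψ) = ∑ x, (starRingEnd ℂ) (φ (x + a)) * (ch (b * x) * ψ x) := by
  unfold ip
  symm
  apply Fintype.sum_equiv (Equiv.addRight a)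
  intro x
  rw [D_apply, Equiv.coe_addRight, add_sub_cancel_right]

/-- four values of `ψ` -/
noncomputable def G (ψ : ZMod d → ℂ) (a c y : ZMod d) : ℂ :=
  (starRingEnd ℂ) (ψ (y + c + a)) * ψ (y + c) * ψ (y + a) * (starRingEnd ℂ) (ψ y)

omit [NeZero d] in
lemma G_symm (ψ : ZMod d → ℂ) (a c y : ZMod d) : G ψ a c y = G ψ c a y := by
  unfold G
  rw [add_right_comm]
  ring

lemma overlap_eq (ψ : ZMod d → ℂ) (a b : ZMod d) :
    ((overlap ψ (a, b) : ℝ) : ℂ) = ∑ y, ∑ c, ch (b * c) * G ψ a c y := by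
  have h1 : ((overlap ψ (a, b) : ℝ) : ℂ) =
      ip ψ (D a b ψ) * (starRingEnd ℂ) (ip ψ (D a b ψ)) := by
    rw [Complex.mul_conj, Complex.normSq_eq_norm_sq]
    rfl
  rw [h1, ip_D, map_sum, sum_mul_sum, sum_comm]
  refine sum_congr rfl fun y _ => ?_
  symm
  apply Fintype.sum_equiv (Equiv.addLeft y)
  intro c
  rw [Equiv.coe_addLeft, map_mul, map_mul, Complex.conj_conj, ch_neg]
  unfold G
  have e : ch (b * c) = ch (b * (y + c)) * ch (-(b * y)) := by
    rw [← ch_add]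
    congr 1
    ring
  rw [e]
  ring

lemma sum_ch2 (q : ZMod d × ZMod d) :
    ∑ x : ZMod d × ZMod d, ch (x.1 * q.2 - x.2 * q.1) = if q = 0 then (d : ℂ) * d else 0 := by
  have h1 : ∀ x : ZMod d × ZMod d, ch (x.1 * q.2 - x.2 * q.1) = ch (q.2 * x.1) * ch (-q.1 * x.2) := by
    intro x
    rw [← ch_add]
    congr 1
    ring
  rw [sum_congr rfl fun x _ => h1 x, Fintype.sum_prod_type]
  simp only
  rw [← sum_mul_sum, sum_ch, sum_ch]
  by_cases h2 : q.2 = 0
  · by_cases h3 : q.1 = 0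
    · rw [if_pos h2, if_pos (by rw [h3, neg_zero]), if_pos (Prod.ext h3 h2)]
    · rw [if_neg (c := -q.1 = 0) (by rwa [neg_eq_zero]), mul_zero,
        if_neg (fun h => h3 (congrArg Prod.fst h))]
  · rw [if_neg h2, zero_mul, if_neg (fun h => h2 (congrArg Prod.snd h))]

/-- the squared overlaps are self-dual -/
lemma overlap_selfDual (ψ : ZMod d → ℂ) : SelfDual (fun p => ((overlap ψ p : ℝ) : ℂ)) := by
  intro q
  obtain ⟨r, s⟩ := q
  simp only
  have h1 : ∀ a b : ZMod d, ch (a * s - b * r) * ((overlap ψ (a, b) : ℝ) : ℂ) =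
      ∑ y, ∑ c, (ch (a * s) * G ψ a c y) * ch ((c - r) * b) := by
    intro a b
    rw [overlap_eq, mul_sum]
    refine sum_congr rfl fun y _ => ?_
    rw [mul_sum]
    refine sum_congr rfl fun c _ => ?_
    have e : ch (a * s - b * r) * ch (b * c) = ch (a * s) * ch ((c - r) * b) := by
      rw [← ch_add, ← ch_add]
      congr 1
      ring
    rw [← mul_assoc, e]
    ring
  rw [Fintype.sum_prod_type]
  simp only
  have h2 : ∀ a : ZMod d, ∑ b, ch (a * s - b * r) * ((overlap ψ (a, b) : ℝ) : ℂ) =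
      (d : ℂ) * ∑ y, ch (a * s) * G ψ a r y := by
    intro a
    rw [sum_congr rfl fun b _ => h1 a b, sum_comm, mul_sum]
    refine sum_congr rfl fun y _ => ?_
    rw [sum_comm]
    have h3 : ∀ c : ZMod d, ∑ b, (ch (a * s) * G ψ a c y) * ch ((c - r) * b) =
        if c = r then (d : ℂ) * (ch (a * s) * G ψ a r y) else 0 := by
      intro c
      rw [← mul_sum, sum_ch]
      by_cases hc : c = r
      · rw [if_pos (sub_eq_zero.2 hc), if_pos hc, hc]
        ring
      · rw [if_neg (fun h => hc (sub_eq_zero.1 h)), if_neg hc, mul_zero]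
    rw [sum_congr rfl fun c _ => h3 c, sum_ite_eq' univ r, if_pos (mem_univ _)]
  rw [sum_congr rfl fun a _ => h2 a, ← mul_sum, overlap_eq, sum_comm]
  congr 1
  refine sum_congr rfl fun y _ => sum_congr rfl fun c _ => ?_
  rw [G_symm, mul_comm c s]

lemma const_selfDual (c : ℂ) :
    SelfDual (fun p : ZMod d × ZMod d => c * (1 + if p = 0 then (d : ℂ) else 0)) := by
  intro q
  have h1 : ∀ x : ZMod d × ZMod d, ch (x.1 * q.2 - x.2 * q.1) *
      (c * (1 + if x = 0 then (d : ℂ) else 0)) =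
      c * ch (x.1 * q.2 - x.2 * q.1) + if x = 0 then c * d else 0 := by
    intro x
    by_cases hx : x = 0
    · rw [if_pos hx, if_pos hx, hx]
      simp only [Prod.fst_zero, Prod.snd_zero, zero_mul, sub_zero]
      rw [ch_zero]
      ring
    · rw [if_neg hx, if_neg hx]
      ring
  rw [sum_congr rfl fun x _ => h1 x, sum_add_distrib, ← mul_sum, sum_ch2, sum_ite_eq' univ 0,
    if_pos (mem_univ _)]
  by_cases hq : q = 0
  · simp only [if_pos hq]
    ring
  · simp only [if_neg hq]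
    ring

/-- real self-dual functions are even -/
lemma even_of_real {h : ZMod d × ZMod d → ℂ} (hs : SelfDual h)
    (hr : ∀ x, (starRingEnd ℂ) (h x) = h x) (q : ZMod d × ZMod d) : h (-q) = h q := by
  have hd : (d : ℂ) ≠ 0 := by exact_mod_cast NeZero.ne d
  apply mul_left_cancel₀ hd
  have h1 := congrArg (starRingEnd ℂ) (hs q)
  rw [map_sum, map_mul, hr, Complex.conj_natCast] at h1
  rw [← h1, ← hs (-q)]
  refine sum_congr rfl fun x _ => ?_
  rw [map_mul, hr, ch_neg]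
  congr 2
  simp only [Prod.snd_neg, Prod.fst_neg]
  ring

/-- the deviation from the overlaps of a fiducial -/
noncomputable def dev (ψ : ZMod d → ℂ) (c : ℝ) (p : ZMod d × ZMod d) : ℂ :=
  ((overlap ψ p : ℝ) : ℂ) - (c : ℂ) * (1 + if p = 0 then (d : ℂ) else 0)

lemma dev_selfDual (ψ : ZMod d → ℂ) (c : ℝ) : SelfDual (dev ψ c) := by
  intro q
  have h1 := overlap_selfDual ψ q
  have h2 := const_selfDual (d := d) (c : ℂ) q
  unfold dev
  simp only [mul_sub, sum_sub_distrib] at h1 h2 ⊢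
  rw [h1, h2]

lemma dev_even (ψ : ZMod d → ℂ) (c : ℝ) (p : ZMod d × ZMod d) : dev ψ c (-p) = dev ψ c p := by
  refine even_of_real (dev_selfDual ψ c) (fun x => ?_) p
  unfold dev
  rw [map_sub, map_mul, Complex.conj_ofReal, Complex.conj_ofReal, map_add, map_one]
  split_ifs
  · rw [Complex.conj_natCast]
  · rw [map_zero]

lemma overlap_zero {ψ : ZMod d → ℂ} (hψ : ∑ j, ‖ψ j‖ ^ 2 = 1) : overlap ψ 0 = 1 := by
  have h1 : ip ψ (D 0 0 ψ) = 1 := by
    rw [ip_D]
    have h2 : ∀ x : ZMod d, (starRingEnd ℂ) (ψ (x + 0)) * (ch (0 * x) * ψ x) =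
        ((‖ψ x‖ ^ 2 : ℝ) : ℂ) := by
      intro x
      rw [add_zero, zero_mul, ch_zero, one_mul, mul_comm, Complex.mul_conj,
        Complex.normSq_eq_norm_sq]
    rw [sum_congr rfl fun x _ => h2 x, ← Complex.ofReal_sum, hψ, Complex.ofReal_one]
  unfold overlap
  simp only [Prod.fst_zero, Prod.snd_zero]
  rw [h1, norm_one, one_pow]

lemma dev_zero {ψ : ZMod d → ℂ} (hψ : ∑ j, ‖ψ j‖ ^ 2 = 1) (c : ℝ) :
    dev ψ c 0 = ((1 - c * (1 + d) : ℝ) : ℂ) := by
  unfold dev
  rw [overlap_zero hψ, if_pos rfl]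
  push_cast
  ring

lemma dev_zero_iff {ψ : ZMod d → ℂ} (hψ : ∑ j, ‖ψ j‖ ^ 2 = 1) (c : ℝ) :
    dev ψ c 0 = 0 ↔ c = 1 / (d + 1) := by
  have hd : (0 : ℝ) < (d : ℝ) + 1 := by positivity
  rw [dev_zero hψ, Complex.ofReal_eq_zero, eq_div_iff hd.ne']
  constructor <;> intro h <;> linarith

lemma dev_ne {ψ : ZMod d → ℂ} {c : ℝ} {p : ZMod d × ZMod d} (hp : p ≠ 0) :
    dev ψ c p = ((overlap ψ p - c : ℝ) : ℂ) := by
  unfold dev
  rw [if_neg hp]
  push_cast
  ring

lemma dev_ne_iff {ψ : ZMod d → ℂ} {c : ℝ} {p : ZMod d × ZMod d} (hp : p ≠ 0) :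
    dev ψ c p ≠ 0 ↔ overlap ψ p ≠ c := by
  rw [dev_ne hp, Ne, Complex.ofReal_eq_zero, sub_eq_zero]

lemma mem_exc {ψ : ZMod d → ℂ} {c : ℝ} {p : ZMod d × ZMod d} :
    p ∈ exceptions ψ c ↔ p ≠ 0 ∧ dev ψ c p ≠ 0 := by
  unfold exceptions
  rw [mem_filter]
  constructor
  · rintro ⟨_, h1, h2⟩
    exact ⟨h1, (dev_ne_iff h1).2 h2⟩
  · rintro ⟨h1, h2⟩
    exact ⟨mem_univ _, h1, (dev_ne_iff h1).1 h2⟩

lemma exc_eq (ψ : ZMod d → ℂ) (c : ℝ) :
    exceptions ψ c = (univ.filter fun x => dev ψ c x ≠ 0).erase 0 := by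
  ext p
  rw [mem_exc, mem_erase, mem_filter]
  simp

lemma card_of_zero {ψ : ZMod d → ℂ} {c : ℝ} (h0 : dev ψ c 0 = 0) :
    (univ.filter fun x => dev ψ c x ≠ 0).card = (exceptions ψ c).card := by
  rw [exc_eq, erase_eq_of_notMem]
  simp [h0]

lemma card_of_ne {ψ : ZMod d → ℂ} {c : ℝ} (h0 : dev ψ c 0 ≠ 0) :
    (univ.filter fun x => dev ψ c x ≠ 0).card = (exceptions ψ c).card + 1 := by
  rw [exc_eq, card_erase_add_one]
  simp [h0]

lemma card_le (ψ : ZMod d → ℂ) (c : ℝ) :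
    (univ.filter fun x => dev ψ c x ≠ 0).card ≤ (exceptions ψ c).card + 1 := by
  by_cases h0 : dev ψ c 0 = 0
  · rw [card_of_zero h0]
    omega
  · rw [card_of_ne h0]

lemma fid_of_dev {ψ : ZMod d → ℂ} (hψ : ∑ j, ‖ψ j‖ ^ 2 = 1) {c : ℝ} (h : dev ψ c = 0) :
    IsFiducial ψ ∧ c = 1 / (d + 1) := by
  have hc : c = 1 / (d + 1) := (dev_zero_iff hψ c).1 (congrFun h 0)
  refine ⟨⟨hψ, fun a b hab => ?_⟩, hc⟩
  have h1 := congrFun h (a, b)
  rw [dev_ne hab, Pi.zero_apply, Complex.ofReal_eq_zero, sub_eq_zero] at h1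
  rw [← hc, ← h1]
  rfl

lemma fid_of_exc {ψ : ZMod d → ℂ} (hψ : ∑ j, ‖ψ j‖ ^ 2 = 1)
    (h : (exceptions ψ (1 / (d + 1))).card = 0) : IsFiducial ψ := by
  refine ⟨hψ, fun a b hab => ?_⟩
  rw [card_eq_zero] at h
  by_contra h1
  have : (a, b) ∈ exceptions ψ (1 / (d + 1)) := by
    unfold exceptions
    rw [mem_filter]
    exact ⟨mem_univ _, hab, h1⟩
  rw [h] at this
  simp at this

lemma dev_zero_of_card {ψ : ZMod d → ℂ} {c : ℝ}
    (hc : (univ.filter fun x => dev ψ c x ≠ 0).card < d) : dev ψ c = 0 := by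
  by_contra h
  exact absurd (card_supp (dev_selfDual ψ c) h) (not_le.2 hc)

/-- the first statement -/
lemma few {ψ : ZMod d → ℂ} (hd : 2 ≤ d) (hψ : ∑ j, ‖ψ j‖ ^ 2 = 1) {c : ℝ}
    (h : (exceptions ψ c).card ≤ d - 2) : IsFiducial ψ ∧ c = 1 / (d + 1) := by
  refine fid_of_dev hψ (dev_zero_of_card ?_)
  have := card_le ψ c
  omega

/-- the SIC value -/
lemma few_sic {ψ : ZMod d → ℂ} (hd : 2 ≤ d) (hψ : ∑ j, ‖ψ j‖ ^ 2 = 1)
    (h : (exceptions ψ (1 / (d + 1))).card ≤ d - 1) : IsFiducial ψ := by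
  refine (fid_of_dev hψ (c := 1 / (d + 1)) (dev_zero_of_card ?_)).1
  rw [card_of_zero ((dev_zero_iff hψ _).2 rfl)]
  omega

/-- the extremal case -/
lemma lagrangian {ψ : ZMod d → ℂ} (hd : 2 ≤ d) (hψ : ∑ j, ‖ψ j‖ ^ 2 = 1) {c : ℝ}
    (h : (exceptions ψ c).card = d - 1) :
    c ≠ 1 / (d + 1) ∧ ∃ H : AddSubgroup (ZMod d × ZMod d), Nat.card H = d ∧
      (∀ p ∈ H, ∀ q ∈ H, p.1 * q.2 = p.2 * q.1) ∧
      (∀ p ∈ H, p ≠ 0 → overlap ψ p = 1 - d * c) ∧ (∀ p, p ∉ H → overlap ψ p = c) := by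
  classical
  have h0 : dev ψ c 0 ≠ 0 := by
    intro h0
    have h1 : dev ψ c = 0 := by
      apply dev_zero_of_card
      rw [card_of_zero h0]
      omega
    have h2 : exceptions ψ c = ∅ := by
      rw [eq_empty_iff_forall_notMem]
      intro p hp
      exact (mem_exc.1 hp).2 (congrFun h1 p)
    rw [h2, card_empty] at h
    omega
  have hcard : (univ.filter fun x => dev ψ c x ≠ 0).card = d := by
    rw [card_of_ne h0]
    omega
  obtain ⟨e1, e2, e3, e4⟩ := extremal (dev_selfDual ψ c) h0 hcard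
  refine ⟨fun hc => h0 ((dev_zero_iff hψ c).2 hc),
    { carrier := {p | dev ψ c p ≠ 0}
      add_mem' := fun {x y} hx hy => e3 x y hx hy
      zero_mem' := h0
      neg_mem' := fun {x} hx => e4 x hx }, ?_, fun p hp q hq => e2 p q hp hq, ?_, ?_⟩
  · refine Eq.trans ?_ hcard
    change Nat.card {p // dev ψ c p ≠ 0} = _
    rw [Nat.card_eq_fintype_card, Fintype.card_subtype]
  · intro p hp hp0
    have h1 := e1 p hp
    rw [dev_ne hp0, dev_zero hψ, Complex.ofReal_inj] at h1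
    linarith
  · intro p hp
    have hp1 : ¬ (dev ψ c p ≠ 0) := hp
    push Not at hp1
    have hp0 : p ≠ 0 := by
      intro h1
      rw [h1] at hp1
      exact h0 hp1
    rw [dev_ne hp0, Complex.ofReal_eq_zero, sub_eq_zero] at hp1
    exact hp1

/-- in odd dimensions the number of the exceptions is even -/
lemma even_exc (ψ : ZMod d → ℂ) (c : ℝ) (hd : Odd d) : Even (exceptions ψ c).card := by
  have h1 : ∑ x ∈ exceptions ψ c, (1 : ZMod 2) = 0 := by
    refine sum_involution (fun p _ => -p) (fun p _ => by decide) (fun p hp _ h2 => ?_)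
      (fun p hp => ?_) (fun p _ => neg_neg p)
    · have hp0 := (mem_exc.1 hp).1
      apply hp0
      have h4 : ∀ z : ZMod d, -z = z → z = 0 := by
        intro z hz
        have h5 : (2 : ZMod d) * z = 0 := by linear_combination (-1 : ZMod d) * hz
        have h6 : IsUnit (2 : ZMod d) := by
          have := (ZMod.isUnit_iff_coprime 2 d).2 (Nat.coprime_two_left.2 hd)
          exact_mod_cast this
        exact (h6.mul_right_eq_zero).1 h5
      exact Prod.ext (h4 _ (congrArg Prod.fst h2)) (h4 _ (congrArg Prod.snd h2))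
    · rw [mem_exc] at hp ⊢
      exact ⟨neg_ne_zero.2 hp.1, by rw [dev_even]; exact hp.2⟩
  rw [sum_const, nsmul_eq_mul, mul_one, ZMod.natCast_eq_zero_iff] at h1
  exact even_iff_two_dvd.2 h1

/-- the gap in odd prime dimensions -/
lemma gap {ψ : ZMod d → ℂ} (hp : d.Prime) (hp2 : d ≠ 2) {c : ℝ}
    (h : (exceptions ψ c).card < 2 * d - 2) :
    (exceptions ψ c).card = 0 ∨ (exceptions ψ c).card = d - 1 := by
  have : Fact d.Prime := ⟨hp⟩
  have hodd : Odd d := hp.odd_of_ne_two hp2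
  have h3 : 3 ≤ d := by
    have := hp.two_le
    omega
  obtain ⟨m, hm⟩ := even_exc ψ c hodd
  have hlt : (univ.filter fun x => dev ψ c x ≠ 0).card < 2 * d - 2 := by
    have := card_le ψ c
    obtain ⟨n, hn⟩ := hodd
    omega
  by_cases h0 : dev ψ c = 0
  · left
    rw [card_eq_zero, eq_empty_iff_forall_notMem]
    intro p hp
    exact (mem_exc.1 hp).2 (congrFun h0 p)
  · right
    obtain ⟨h4, h5⟩ := prime_gap h3 (dev_selfDual ψ c) (dev_even ψ c) h0 hlt
    have := card_of_ne h4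
    omega

/-- exceptions on few lines through the origin -/
lemma scaling {ψ : ZMod d → ℂ} (hp : d.Prime) {c : ℝ} (V : Finset (ZMod d × ZMod d))
    (hV0 : 0 ∉ V) (hV : (V.card - 1) ^ 2 < d)
    (hE : ∀ p ∈ exceptions ψ c, ∃ v ∈ V, p.1 * v.2 = p.2 * v.1) (t : ZMod d) (ht : t ≠ 0)
    (p : ZMod d × ZMod d) : dev ψ c (t • p) = dev ψ c p := by
  classical
  have : Fact d.Prime := ⟨hp⟩
  have h1 : ∀ v : ZMod d × ZMod d, ∃ i : Option (ZMod d), v ≠ 0 → ∃ e : ZMod d, e ≠ 0 ∧ v = e • w i := by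
    intro v
    by_cases hv : v = 0
    · exact ⟨none, fun h => absurd hv h⟩
    · obtain ⟨i, e, he, hve⟩ := exists_w hv
      exact ⟨i, fun _ => ⟨e, he, hve⟩⟩
  choose σ hσ using h1
  refine few_lines (dev_selfDual ψ c) (V.image σ) (fun i hi e he => ?_) ?_ t ht p
  · by_contra hne
    have hw0 : e • w i ≠ 0 := by
      intro h2
      have h3 : w i = 0 := (smul_eq_zero.1 h2).resolve_left he
      rcases i with _ | s
      · exact one_ne_zero (congrArg Prod.snd h3)
      · exact one_ne_zero (congrArg Prod.fst h3)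
    obtain ⟨v, hv, hpv⟩ := hE _ (mem_exc.2 ⟨hw0, hne⟩)
    obtain ⟨e', he', hve⟩ := hσ v (fun h => hV0 (h ▸ hv))
    have hij : i ≠ σ v := fun h => hi (h ▸ mem_image_of_mem σ hv)
    apply sy_w hij
    rw [hve] at hpv
    simp only [Prod.smul_fst, Prod.smul_snd, smul_eq_mul] at hpv
    have h4 : (e * e') * sy (w i) (w (σ v)) = 0 := by
      unfold sy
      linear_combination hpv
    exact (mul_eq_zero.1 h4).resolve_left (mul_ne_zero he he')
  · refine lt_of_le_of_lt (Nat.pow_le_pow_left ?_ 2) hV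
    have := card_image_le (s := V) (f := σ)
    omega

lemma overlap_smul {ψ : ZMod d → ℂ} (hp : d.Prime) {c : ℝ} {t : ZMod d} (ht : t ≠ 0)
    {p : ZMod d × ZMod d} (h : dev ψ c (t • p) = dev ψ c p) : overlap ψ (t • p) = overlap ψ p := by
  have : Fact d.Prime := ⟨hp⟩
  by_cases hp0 : p = 0
  · rw [hp0, smul_zero]
  · have h1 : t • p ≠ 0 := smul_ne_zero ht hp0
    rw [dev_ne h1, dev_ne hp0, Complex.ofReal_inj] at h
    linarith

lemma dvd_of_scaling {ψ : ZMod d → ℂ} (hp : d.Prime) {c : ℝ}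
    (h : ∀ t : ZMod d, t ≠ 0 → ∀ p, dev ψ c (t • p) = dev ψ c p) :
    (d - 1) ∣ (exceptions ψ c).card := by
  classical
  have : Fact d.Prime := ⟨hp⟩
  have hw : ∀ i : Option (ZMod d), w i ≠ 0 := by
    intro i h3
    rcases i with _ | s
    · exact one_ne_zero (congrArg Prod.snd h3)
    · exact one_ne_zero (congrArg Prod.fst h3)
  have hmem : ∀ t : ZMod d, t ≠ 0 → ∀ p, (t • p ∈ exceptions ψ c ↔ p ∈ exceptions ψ c) := by
    intro t ht p
    rw [mem_exc, mem_exc, h t ht p, smul_ne_zero_iff]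
    tauto
  have h0 : (0 : ZMod d × ZMod d) ∉ exceptions ψ c := fun h1 => (mem_exc.1 h1).1 rfl
  have h1 := sum_lines (p := d) (fun x => if x ∈ exceptions ψ c then 1 else 0) (if_neg h0)
  have h2 : ∀ i : Option (ZMod d), ∑ e : ZMod d, (if e • w i ∈ exceptions ψ c then (1 : ℂ) else 0) =
      ((d - 1 : ℕ) : ℂ) * (if w i ∈ exceptions ψ c then 1 else 0) := by
    intro i
    rw [← add_sum_erase univ _ (mem_univ (0 : ZMod d)), zero_smul, if_neg h0, zero_add]
    have h3 : ∀ e ∈ univ.erase (0 : ZMod d), (if e • w i ∈ exceptions ψ c then (1 : ℂ) else 0) =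
        (if w i ∈ exceptions ψ c then 1 else 0) := by
      intro e he
      simp only [hmem e (mem_erase.1 he).1]
    rw [sum_congr rfl h3, sum_const, card_erase_of_mem (mem_univ _), card_univ, ZMod.card,
      nsmul_eq_mul]
  simp only [h2, ← mul_sum] at h1
  rw [sum_boole, sum_boole] at h1
  have h4 : (univ.filter fun x => x ∈ exceptions ψ c).card = (d - 1) *
      (univ.filter fun i : Option (ZMod d) => w i ∈ exceptions ψ c).card := by
    exact_mod_cast h1
  rw [filter_mem_eq_inter, univ_inter] at h4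
  rw [h4]
  exact dvd_mul_right _ _

/-- the approximate version for less than `d` exceptions -/
lemma robust {ψ : ZMod d → ℂ} (hψ : ∑ j, ‖ψ j‖ ^ 2 = 1) {ε : ℝ} (hε : 0 ≤ ε)
    (S : Finset (ZMod d × ZMod d)) (hS : S.card < d)
    (h : ∀ p, p ≠ 0 → p ∉ S → |overlap ψ p - 1 / (d + 1)| ≤ ε) (p : ZMod d × ZMod d) (hp0 : p ≠ 0) :
    |overlap ψ p - 1 / (d + 1)| ≤ ε * ((d : ℝ) ^ 2 - S.card) / (d - S.card) := by
  classical
  set g := dev ψ (1 / (d + 1)) with hg
  have hg0 : g 0 = 0 := (dev_zero_iff hψ _).2 rfl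
  have hgn : ∀ q, q ≠ 0 → ‖g q‖ = |overlap ψ q - 1 / (d + 1)| := by
    intro q hq
    rw [hg, dev_ne hq, Complex.norm_real, Real.norm_eq_abs]
  have hgS : ∀ q, q ∉ S → ‖g q‖ ≤ ε := by
    intro q hq
    by_cases hq0 : q = 0
    · rw [hq0, hg0, norm_zero]; exact hε
    · rw [hgn q hq0]; exact h q hq0 hq
  obtain ⟨q, hq⟩ := Finite.exists_max fun x => ‖g x‖
  have hs := dev_selfDual ψ (1 / (d + 1)) q
  have h1 : (d : ℝ) * ‖g q‖ ≤ S.card * ‖g q‖ + ((d : ℝ) ^ 2 - S.card) * ε := by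
    calc (d : ℝ) * ‖g q‖ = ‖(d : ℂ) * g q‖ := by rw [norm_mul, Complex.norm_natCast]
      _ = ‖∑ x : ZMod d × ZMod d, ch (x.1 * q.2 - x.2 * q.1) * g x‖ := by rw [hg, hs]
      _ ≤ ∑ x : ZMod d × ZMod d, ‖ch (x.1 * q.2 - x.2 * q.1) * g x‖ := norm_sum_le _ _
      _ = ∑ x : ZMod d × ZMod d, ‖g x‖ := by
          refine sum_congr rfl fun x _ => ?_
          rw [norm_mul, ch_norm, one_mul]
      _ = ∑ x ∈ S, ‖g x‖ + ∑ x ∈ Sᶜ, ‖g x‖ := (sum_add_sum_compl S _).symm
      _ ≤ ∑ x ∈ S, ‖g q‖ + ∑ x ∈ Sᶜ, ε :=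
          add_le_add (sum_le_sum fun x _ => hq x)
            (sum_le_sum fun x hx => hgS x (mem_compl.1 hx))
      _ = S.card * ‖g q‖ + ((d : ℝ) ^ 2 - S.card) * ε := by
          rw [sum_const, sum_const, nsmul_eq_mul, nsmul_eq_mul, card_compl, Nat.cast_sub
            (card_le_univ S), Fintype.card_prod, ZMod.card]
          push_cast
          ring
  have hpos : (0 : ℝ) < d - S.card := by
    have : (S.card : ℝ) < d := by exact_mod_cast hS
    linarith
  rw [← hgn p hp0, le_div_iff₀ hpos]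
  have h2 := hq p
  have h3 := mul_le_mul_of_nonneg_right h2 hpos.le
  nlinarith

/-- a basis vector has `d - 1` exceptions for the value `0` -/
lemma sharp : ∃ ψ : ZMod d → ℂ, ∑ j, ‖ψ j‖ ^ 2 = 1 ∧ (exceptions ψ 0).card = d - 1 := by
  classical
  refine ⟨fun j => if j = 0 then 1 else 0, ?_, ?_⟩
  · have : ∀ j : ZMod d, ‖(if j = 0 then (1 : ℂ) else 0)‖ ^ 2 = if j = 0 then 1 else 0 := by
      intro j
      split_ifs <;> simp
    rw [sum_congr rfl fun j _ => this j, sum_ite_eq' univ 0, if_pos (mem_univ _)]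
  · have hov : ∀ p : ZMod d × ZMod d, overlap (fun j : ZMod d => if j = 0 then (1 : ℂ) else 0) p =
        if p.1 = 0 then 1 else 0 := by
      intro p
      unfold overlap
      rw [ip_D]
      have : ∀ x : ZMod d, (starRingEnd ℂ) (if x + p.1 = 0 then (1 : ℂ) else 0) *
          (ch (p.2 * x) * (if x = 0 then (1 : ℂ) else 0)) =
          if x = 0 then (if p.1 = 0 then 1 else 0) else 0 := by
        intro x
        by_cases hx : x = 0
        · rw [if_pos hx, if_pos hx, hx, zero_add, mul_zero, ch_zero]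
          split_ifs <;> simp
        · rw [if_neg hx, if_neg hx, mul_zero, mul_zero]
      rw [sum_congr rfl fun x _ => this x, sum_ite_eq' univ 0, if_pos (mem_univ _)]
      split_ifs <;> simp
    have : exceptions (fun j : ZMod d => if j = 0 then (1 : ℂ) else 0) 0 =
        (univ.erase (0 : ZMod d)).image (fun b => ((0, b) : ZMod d × ZMod d)) := by
      ext p
      unfold exceptions
      rw [mem_filter, mem_image, hov]
      constructor
      · rintro ⟨_, h1, h2⟩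
        have h3 : p.1 = 0 := by
          by_contra h3
          rw [if_neg h3] at h2
          exact h2 rfl
        refine ⟨p.2, mem_erase.2 ⟨fun h4 => h1 (Prod.ext h3 h4), mem_univ _⟩, ?_⟩
        rw [← h3]
      · rintro ⟨b, hb, rfl⟩
        refine ⟨mem_univ _, fun h1 => (mem_erase.1 hb).1 (congrArg Prod.snd h1), ?_⟩
        simp
    rw [this, card_image_of_injective _ (fun a b h => congrArg Prod.snd h),
      card_erase_of_mem (mem_univ _), card_univ, ZMod.card]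

lemma overlap_neg (ψ : ZMod d → ℂ) (p : ZMod d × ZMod d) : overlap ψ (-p) = overlap ψ p := by
  by_cases hp : p = 0
  · rw [hp, neg_zero]
  · have h := dev_even ψ 0 p
    rw [dev_ne (neg_ne_zero.2 hp), dev_ne hp, Complex.ofReal_inj] at h
    linarith

/-- a vector in dimension three for which four of the SIC equations fail -/
lemma sharp3 : ∃ ψ : ZMod 3 → ℂ, ∑ j, ‖ψ j‖ ^ 2 = 1 ∧
    (exceptions ψ (1 / (((3 : ℕ) : ℝ) + 1))).card = 2 * 3 - 2 := by
  obtain ⟨ψ, h1, h01, h10, h11, h12⟩ := three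
  have hov : ∀ a b : ZMod 3, overlap ψ (a, b) = ‖ov ψ a b‖ ^ 2 := by
    intro a b
    unfold overlap
    rw [ip_D]
    rfl
  have hc : (1 : ℝ) / (((3 : ℕ) : ℝ) + 1) = 1 / 4 := by norm_num
  rw [← hov] at h01 h10 h11 h12
  have h02 : overlap ψ (0, 2) = 1 / 4 := by rw [← h01, ← overlap_neg]; rfl
  have h20 : overlap ψ (2, 0) = 1 / 4 := by rw [← h10, ← overlap_neg]; rfl
  have h22 : overlap ψ (2, 2) ≠ 1 / 4 := by
    have : overlap ψ (2, 2) = overlap ψ (1, 1) := by rw [← overlap_neg]; rfl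
    rw [this]; exact h11
  have h21 : overlap ψ (2, 1) ≠ 1 / 4 := by
    have : overlap ψ (2, 1) = overlap ψ (1, 2) := by rw [← overlap_neg]; rfl
    rw [this]; exact h12
  refine ⟨ψ, h1, ?_⟩
  rw [hc]
  have hm : ∀ p, p ∈ exceptions ψ (1 / 4) ↔ p ≠ 0 ∧ overlap ψ p ≠ 1 / 4 := by
    intro p
    unfold exceptions
    rw [mem_filter]
    simp
  have hall : ∀ p : ZMod 3 × ZMod 3, p = 0 ∨ p = (0, 1) ∨ p = (0, 2) ∨ p = (1, 0) ∨ p = (2, 0) ∨
      p = (1, 1) ∨ p = (1, 2) ∨ p = (2, 1) ∨ p = (2, 2) := by decide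
  have heq : exceptions ψ (1 / 4) = {(1, 1), (1, 2), (2, 1), (2, 2)} := by
    ext p
    rcases hall p with rfl | rfl | rfl | rfl | rfl | rfl | rfl | rfl | rfl
    · exact iff_of_false (fun h => ((hm _).1 h).1 rfl) (by decide)
    · exact iff_of_false (fun h => ((hm _).1 h).2 h01) (by decide)
    · exact iff_of_false (fun h => ((hm _).1 h).2 h02) (by decide)
    · exact iff_of_false (fun h => ((hm _).1 h).2 h10) (by decide)
    · exact iff_of_false (fun h => ((hm _).1 h).2 h20) (by decide)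
    · exact iff_of_true ((hm _).2 ⟨by decide, h11⟩) (by decide)
    · exact iff_of_true ((hm _).2 ⟨by decide, h12⟩) (by decide)
    · exact iff_of_true ((hm _).2 ⟨by decide, h21⟩) (by decide)
    · exact iff_of_true ((hm _).2 ⟨by decide, h22⟩) (by decide)
  rw [heq]
  decide

end Pool.Agent.Results.MP_1c78a5_mp.OverlapGaps

open Pool.Agent.Results.MP_1c78a5_mp.OverlapGaps in
/-- Let `ψ ∈ ℂ^d` be a unit vector, `c` a real number, `E` the set of the `p ≠ 0` for which
`|⟨ψ|D_p|ψ⟩|² ≠ c`.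
1. If `|E| ≤ d - 2`, then `ψ` is a fiducial and `c = 1/(d+1)`.
2. If `|E| = d - 1`, then `c ≠ 1/(d+1)`, and `E ∪ {0}` is an isotropic subgroup of order `d`, the squared
   overlaps are `1 - dc` at its nonzero elements.
3. `ψ` is a fiducial if at most `d - 1` of the `d² - 1` SIC equations fail.
4. If for less than `d` exceptions the squared overlaps differ from `1/(d+1)` by at most `ε`, then all of
   them differ from `1/(d+1)` by at most `d²ε` (more precisely `ε(d² - m)/(d - m)`, `m` exceptions).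
5. If `d` is odd, then `|E|` is even.
6. If `d` is an odd prime and `|E| < 2d - 2`, then `|E| = 0` or `|E| = d - 1`.
7. If `d` is an odd prime, then `ψ` is a fiducial if less than `2d - 2` of the SIC equations fail.
8. If `d` is prime and `E` is contained in the union of `m` lines through the origin, `(m - 1)² < d`,
   then the squared overlap is constant on every line through the origin, except at the origin, and
   `|E|` is a multiple of `d - 1`.
9. There are vectors with `|E| = d - 1` (for `c = 0`).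
10. In dimension three there is a vector for which exactly `4 = 2d - 2` of the SIC equations fail. -/
theorem Pool.Agent.Results.MP_1c78a5_mp.OverlapGaps.result (d : ℕ) [NeZero d] (hd : 2 ≤ d) :
    (∀ ψ : ZMod d → ℂ, ∑ j, ‖ψ j‖ ^ 2 = 1 → ∀ c : ℝ,
      ((exceptions ψ c).card ≤ d - 2 → IsFiducial ψ ∧ c = 1 / (d + 1)) ∧
      ((exceptions ψ c).card = d - 1 → c ≠ 1 / (d + 1) ∧
        ∃ H : AddSubgroup (ZMod d × ZMod d), Nat.card H = d ∧
          (∀ p ∈ H, ∀ q ∈ H, p.1 * q.2 = p.2 * q.1) ∧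
          (∀ p ∈ H, p ≠ 0 → overlap ψ p = 1 - d * c) ∧ (∀ p, p ∉ H → overlap ψ p = c)) ∧
      ((exceptions ψ (1 / (d + 1))).card ≤ d - 1 → IsFiducial ψ) ∧
      (∀ ε : ℝ, 0 ≤ ε → ∀ S : Finset (ZMod d × ZMod d), S.card < d →
        (∀ p, p ≠ 0 → p ∉ S → |overlap ψ p - 1 / (d + 1)| ≤ ε) →
        ∀ p, p ≠ 0 → |overlap ψ p - 1 / (d + 1)| ≤ ε * ((d : ℝ) ^ 2 - S.card) / (d - S.card)) ∧
      (Odd d → Even (exceptions ψ c).card) ∧
      (d.Prime → d ≠ 2 → (exceptions ψ c).card < 2 * d - 2 →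
        (exceptions ψ c).card = 0 ∨ (exceptions ψ c).card = d - 1) ∧
      (d.Prime → d ≠ 2 → (exceptions ψ (1 / (d + 1))).card < 2 * d - 2 → IsFiducial ψ) ∧
      (d.Prime → ∀ V : Finset (ZMod d × ZMod d), 0 ∉ V → (V.card - 1) ^ 2 < d →
        (∀ p ∈ exceptions ψ c, ∃ v ∈ V, p.1 * v.2 = p.2 * v.1) →
        (∀ t : ZMod d, t ≠ 0 → ∀ p, overlap ψ (t • p) = overlap ψ p) ∧
        (d - 1) ∣ (exceptions ψ c).card)) ∧
    (∃ ψ : ZMod d → ℂ, ∑ j, ‖ψ j‖ ^ 2 = 1 ∧ (exceptions ψ 0).card = d - 1) ∧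
    (d = 3 → ∃ ψ : ZMod d → ℂ, ∑ j, ‖ψ j‖ ^ 2 = 1 ∧
      (exceptions ψ (1 / (d + 1))).card = 2 * d - 2) := by
  refine ⟨fun ψ hψ c => ⟨fun h => few hd hψ h, fun h => lagrangian hd hψ h,
    fun h => few_sic hd hψ h, fun ε hε S hS h p hp => robust hψ hε S hS h p hp,
    fun h => even_exc ψ c h, fun h1 h2 h3 => gap h1 h2 h3, fun h1 h2 h3 => ?_,
    fun h1 V h2 h3 h4 => ⟨fun t ht p => overlap_smul h1 ht (scaling h1 V h2 h3 h4 t ht p),
      dvd_of_scaling h1 (scaling h1 V h2 h3 h4)⟩⟩, sharp, ?_⟩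
  swap
  · intro h3
    subst h3
    exact sharp3
  rcases gap h1 h2 h3 with h4 | h4
  · exact fid_of_exc hψ h4
  · exact few_sic hd hψ h4.le
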