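import Pool.Agent.Q162.WH.Fold

/-!
# Weyl–Heisenberg orbits of order-optimal coherence in every dimension

`X|j⟩ = |j+1⟩`, `Z|j⟩ = ω^j |j⟩`, `ω = e^{2πi/d}`, `D_{a,b} = X^a Z^b`.  A WH SIC fiducial is a unit
vector `ψ ∈ ℂ^d` with `|⟨ψ|D_{a,b}|ψ⟩|² = 1/(d+1)` for all `(a,b) ≠ (0,0)`; for every unit vector the
maximum of these `d² - 1` numbers is at least `1/(d+1)`.  There is an absolute constant `C` such that
in EVERY dimension `d` some unit vector has `|⟨ψ|D_{a,b}|ψ⟩|² ≤ C/d` for all `(a,b) ≠ (0,0)`.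

Construction: let `2d < p ≤ 4d` be a prime. Two blocks of length `d` of the sequence `e(x³/p)`, at the
distance `k = ⌈3d/2⌉`, are multiplied by the windows `sin(πx/d)` and `cos(πx/d)` and folded
modulo `d`. The squares of the windows add up to one, and the windows are Lipschitz, so that all
autocorrelations are smoothly weighted sums of quadratic phases modulo `p`, which are `O(√p)`
without logarithm.
-/

set_option autoImplicit false

open Finset

namespace Pool.Agent.Results.MP_1c78a5_mp.UniformCoherence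

/-- the shift operator, `X|j⟩ = |j+1⟩` -/
def X {d : ℕ} (ψ : ZMod d → ℂ) : ZMod d → ℂ := fun j => ψ (j - 1)

/-- the clock operator, `Z|j⟩ = ω^j |j⟩`, `ω = e^{2πi/d}` -/
noncomputable def Z {d : ℕ} (ψ : ZMod d → ℂ) : ZMod d → ℂ :=
  fun j => Complex.exp (2 * Real.pi * Complex.I / d) ^ j.val * ψ j

/-- the displacement operators `D_{a,b} = X^a Z^b` -/
noncomputable def D {d : ℕ} (a b : ZMod d) (ψ : ZMod d → ℂ) : ZMod d → ℂ :=
  X^[a.val] (Z^[b.val] ψ)

/-- the inner product `⟨φ|ψ⟩` -/
noncomputable def ip {d : ℕ} [NeZero d] (φ ψ : ZMod d → ℂ) : ℂ :=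
  ∑ j, (starRingEnd ℂ) (φ j) * ψ j

lemma X_iter {d : ℕ} (n : ℕ) (ψ : ZMod d → ℂ) (j : ZMod d) : X^[n] ψ j = ψ (j - n) := by
  induction n generalizing j with
  | zero => simp
  | succ n ih =>
    rw [Function.iterate_succ_apply']
    unfold X at ih ⊢
    rw [ih]
    congr 1
    push_cast
    ring

lemma Z_iter {d : ℕ} (n : ℕ) (ψ : ZMod d → ℂ) (j : ZMod d) :
    Z^[n] ψ j = (Complex.exp (2 * Real.pi * Complex.I / d) ^ j.val) ^ n * ψ j := by
  induction n with
  | zero => simp
  | succ n ih =>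
    rw [Function.iterate_succ_apply']
    unfold Z at ih ⊢
    rw [ih, pow_succ]
    ring

open Pool.Agent.Q162.WH

lemma root_pow {d : ℕ} (n m : ℕ) :
    (Complex.exp (2 * Real.pi * Complex.I / d) ^ n) ^ m = ee (m * n / d) := by
  unfold ee
  rw [← pow_mul, ← Complex.exp_nat_mul]
  congr 1
  push_cast
  ring

/-- overlaps of a vector whose coordinates are the values of a `d`-periodic function -/
lemma ip_D {d : ℕ} [NeZero d] (F : ℤ → ℂ) (hF : ∀ x n : ℤ, F (x + n * d) = F x) (c : ℂ)
    (a b : ZMod d) :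
    ip (fun j : ZMod d => c * F j.val) (D a b (fun j : ZMod d => c * F j.val)) =
      (starRingEnd ℂ) c * c * ∑ x ∈ Ico (0 : ℤ) d,
        ee ((b.val : ℤ) * x / d) * F x * (starRingEnd ℂ) (F (x + (a.val : ℤ))) := by
  have hval : ∀ x : ℕ, F ((x : ZMod d).val) = F x := by
    intro x
    rw [ZMod.val_natCast]
    have h := hF ((x % d : ℕ) : ℤ) ((x / d : ℕ) : ℤ)
    rw [← h]
    congr 1
    have := Nat.mod_add_div x d
    push_cast
    have h2 : ((x % d + d * (x / d) : ℕ) : ℤ) = x := by exact_mod_cast this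
    push_cast at h2
    linarith
  have h1 : ip (fun j : ZMod d => c * F j.val) (D a b (fun j : ZMod d => c * F j.val)) =
      ∑ i : ZMod d, (starRingEnd ℂ) c * c * (ee (b.val * i.val / d) * F i.val *
        (starRingEnd ℂ) (F (i.val + a.val))) := by
    unfold ip D
    symm
    apply Fintype.sum_equiv (Equiv.addRight a)
    intro i
    rw [X_iter, Z_iter, root_pow]
    rw [Equiv.coe_addRight, ZMod.natCast_zmod_val, add_sub_cancel_right]
    have h2 : F ((i + a).val) = F (i.val + a.val) := by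
      have h3 := hval (i.val + a.val)
      push_cast at h3
      rw [ZMod.natCast_zmod_val, ZMod.natCast_zmod_val] at h3
      exact h3
    change _ = (starRingEnd ℂ) (c * F ((i + a).val : ℤ)) * (_ * (c * F (i.val : ℤ)))
    rw [h2, map_mul]
    ring
  rw [h1, ← Finset.mul_sum]
  congr 1
  symm
  apply Finset.sum_bij (fun (x : ℤ) _ => ((x.toNat : ℕ) : ZMod d))
  · intro x _
    exact mem_univ _
  · intro x hx y hy hxy
    rw [mem_Ico] at hx hy
    have h2 := congrArg ZMod.val hxy
    rw [ZMod.val_natCast, ZMod.val_natCast, Nat.mod_eq_of_lt (by omega),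
      Nat.mod_eq_of_lt (by omega)] at h2
    omega
  · intro i _
    refine ⟨i.val, ?_, ?_⟩
    · rw [mem_Ico]
      have := i.val_lt
      omega
    · rw [Int.toNat_natCast, ZMod.natCast_zmod_val]
  · intro x hx
    rw [mem_Ico] at hx
    have h2 : (((x.toNat : ℕ) : ZMod d).val : ℤ) = x := by
      rw [ZMod.val_natCast, Nat.mod_eq_of_lt (by omega)]
      omega
    have h3 : ((((x.toNat : ℕ) : ZMod d).val : ℕ) : ℝ) = (x : ℝ) := by exact_mod_cast h2
    rw [h3, h2]
    push_cast
    ring_nf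

lemma delta {d : ℕ} [NeZero d] (a b : ZMod d) :
    ‖ip (Pi.single 0 1 : ZMod d → ℂ) (D a b (Pi.single 0 1))‖ ≤ 1 := by
  unfold ip D
  rw [Finset.sum_eq_single 0]
  · rw [X_iter, Z_iter]
    rw [Pi.single_eq_same, map_one, one_mul, norm_mul, root_pow, norm_ee, one_mul]
    rw [Pi.single_apply]
    split_ifs <;> simp
  · intro j _ hj
    rw [Pi.single_eq_of_ne hj]
    simp
  · intro h
    exact absurd (mem_univ _) h

/-- **WH orbits of order-optimal coherence in every dimension.** -/
theorem result : ∃ C : ℝ, 0 < C ∧ ∀ (d : ℕ) [NeZero d], ∃ ψ : ZMod d → ℂ,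
    ip ψ ψ = 1 ∧
    ∀ a b : ZMod d, (a ≠ 0 ∨ b ≠ 0) → ‖ip ψ (D a b ψ)‖ ^ 2 ≤ C / d := by
  refine ⟨896 ^ 2, by norm_num, fun d _ => ?_⟩
  have hd : 1 ≤ d := NeZero.one_le
  have hd0 : (0 : ℝ) < d := by exact_mod_cast hd
  rcases Nat.lt_or_ge d (896 ^ 2) with hsmall | hlarge
  · refine ⟨Pi.single 0 1, ?_, ?_⟩
    · unfold ip
      rw [Finset.sum_eq_single 0]
      · simp
      · intro j _ hj
        rw [Pi.single_eq_of_ne hj]
        simp
      · intro h
        exact absurd (mem_univ _) h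
    · intro a b _
      have h1 := delta a b
      have h2 : (1 : ℝ) ≤ 896 ^ 2 / d := by
        rw [le_div_iff₀ hd0, one_mul]
        exact_mod_cast hsmall.le
      have h3 : ‖ip (Pi.single 0 1 : ZMod d → ℂ) (D a b (Pi.single 0 1))‖ ^ 2 ≤ 1 := by
        apply pow_le_one₀ (norm_nonneg _) h1
      exact h3.trans h2
  · obtain ⟨p, hp, hp1, hp2⟩ := Nat.exists_prime_lt_and_le_two_mul (2 * d) (by omega)
    obtain ⟨k, hk1, hk2⟩ : ∃ k : ℤ, 3 * (d : ℤ) ≤ 2 * k ∧ 2 * k ≤ 3 * d + 1 :=
      ⟨(3 * d + 1) / 2, by omega, by omega⟩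
    have hb := fun a b ha had =>
      amb_bound p d hp (by norm_num at hlarge; omega) hd (by omega) k hk1 hk2 a b ha had
    have hsp : Real.sqrt p ≤ 2 * Real.sqrt d := by
      rw [show (2 : ℝ) * Real.sqrt d = Real.sqrt (2 ^ 2 * d) by
        rw [Real.sqrt_mul (by norm_num), Real.sqrt_sq (by norm_num)]]
      apply Real.sqrt_le_sqrt
      have : (p : ℝ) ≤ ((2 * (2 * d) : ℕ) : ℝ) := by exact_mod_cast hp2
      push_cast at this
      linarith
    have hsd : (896 : ℝ) ≤ Real.sqrt d := by
      apply Real.le_sqrt_of_sq_le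
      exact_mod_cast hlarge
    have hss : Real.sqrt d * Real.sqrt d = (d : ℝ) := Real.mul_self_sqrt hd0.le
    -- the norm
    set N : ℝ := ∑ x ∈ Ico (0 : ℤ) d, ‖Psi p d k x‖ ^ 2 with hN
    have hamb0 : amb p d k 0 0 = (N : ℂ) := by
      unfold amb
      rw [hN]
      push_cast
      refine Finset.sum_congr rfl fun x _ => ?_
      rw [add_zero, mul_assoc, Complex.mul_conj']
      norm_num [ee_zero]
    have hN1 : (d : ℝ) / 2 ≤ N := by
      have h1 := hb 0 0 le_rfl (by exact_mod_cast hd)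
      rw [if_pos rfl, hamb0] at h1
      have h2 : ∑ x ∈ Ico (0 : ℤ) d, ee (((0 : ℤ) : ℝ) * x / d) = ((d : ℝ) : ℂ) := by
        simp [ee_zero]
      rw [h2, ← Complex.ofReal_sub, Complex.norm_real, Real.norm_eq_abs] at h1
      have h3 := (abs_le.mp h1).1
      nlinarith
    have hN0 : 0 < N := by linarith
    refine ⟨fun j => ((1 / Real.sqrt N : ℝ) : ℂ) * Psi p d k j.val, ?_, ?_⟩
    · have h1 := ip_D (Psi p d k) (Psi_add p d k) ((1 / Real.sqrt N : ℝ) : ℂ) (0 : ZMod d) 0
      have h2 : D (0 : ZMod d) 0 (fun j : ZMod d => ((1 / Real.sqrt N : ℝ) : ℂ) * Psi p d k j.val) =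
          fun j : ZMod d => ((1 / Real.sqrt N : ℝ) : ℂ) * Psi p d k j.val := by
        unfold D
        simp
      rw [h2] at h1
      rw [h1]
      have h3 : ∑ x ∈ Ico (0 : ℤ) d, ee (((0 : ZMod d).val : ℤ) * x / d) * Psi p d k x *
          (starRingEnd ℂ) (Psi p d k (x + ((0 : ZMod d).val : ℤ))) = amb p d k 0 0 := by
        unfold amb
        simp
      rw [h3, hamb0, Complex.conj_ofReal, ← Complex.ofReal_mul, ← Complex.ofReal_mul]
      rw [show 1 / Real.sqrt N * (1 / Real.sqrt N) * N = 1 by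
        have := Real.mul_self_sqrt hN0.le
        have h4 : Real.sqrt N ≠ 0 := (Real.sqrt_pos.mpr hN0).ne'
        field_simp
        nlinarith]
      simp
    · intro a b hab
      rw [ip_D (Psi p d k) (Psi_add p d k) ((1 / Real.sqrt N : ℝ) : ℂ) a b]
      have h1 := hb a.val b.val (by omega) (by exact_mod_cast a.val_lt)
      have h2 : (if ((a.val : ℕ) : ℤ) = 0 then ∑ x ∈ Ico (0 : ℤ) d, ee (((b.val : ℕ) : ℤ) * x / d)
          else 0) = 0 := by
        split_ifs with h
        · have ha : a = 0 := by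
            rw [← ZMod.val_eq_zero]
            exact_mod_cast h
          have hb0 : b ≠ 0 := by
            rcases hab with h3 | h3
            · exact absurd ha h3
            · exact h3
          have h4 := sum_period d hd (b.val : ℤ) (by
            intro hdvd
            have h5 : (d : ℕ) ∣ b.val := by exact_mod_cast hdvd
            have h6 := Nat.eq_zero_of_dvd_of_lt h5 b.val_lt
            exact hb0 ((ZMod.val_eq_zero b).mp h6)) 0
          rw [zero_add] at h4
          exact h4
        · rfl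
      rw [h2, sub_zero] at h1
      have h3 : ∑ x ∈ Ico (0 : ℤ) d, ee ((b.val : ℤ) * x / d) * Psi p d k x *
          (starRingEnd ℂ) (Psi p d k (x + (a.val : ℤ))) = amb p d k a.val b.val := rfl
      rw [h3, Complex.conj_ofReal, norm_mul, ← Complex.ofReal_mul, Complex.norm_real,
        Real.norm_eq_abs, abs_of_nonneg (by positivity)]
      have h4 : 1 / Real.sqrt N * (1 / Real.sqrt N) = 1 / N := by
        rw [div_mul_div_comm, one_mul, Real.mul_self_sqrt hN0.le]
      rw [h4]
      have h5 : ‖amb p d k a.val b.val‖ ≤ 448 * Real.sqrt d := by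
        refine h1.trans ?_
        linarith
      have h6 : 1 / N * ‖amb p d k a.val b.val‖ ≤ 896 / Real.sqrt d := by
        have h7 : 1 / N ≤ 2 / d := by
          rw [div_le_div_iff₀ hN0 hd0]
          linarith
        calc 1 / N * ‖amb p d k a.val b.val‖ ≤ 2 / d * (448 * Real.sqrt d) := by gcongr
          _ = 896 / Real.sqrt d := by
              have h8 : Real.sqrt (d : ℝ) ≠ 0 := by positivity
              rw [← hss]
              field_simp
              rw [Real.sqrt_sq (Real.sqrt_nonneg _)]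
              ring
      have h9 : (1 / N * ‖amb p d k a.val b.val‖) ^ 2 ≤ (896 / Real.sqrt (d : ℝ)) ^ 2 := by
        gcongr
      refine h9.trans (le_of_eq ?_)
      rw [div_pow, Real.sq_sqrt hd0.le]

end Pool.Agent.Results.MP_1c78a5_mp.UniformCoherence
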